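import Mathlib

/-!
The automaton with state set and alphabet a group `Y`, and the group it generates.
-/

namespace Pool.Agent.MP_e17fb9_al.H47

variable {Y : Type} [Group Y]

/-- The map of words defined by the state `a_i`: `a_i (j w) = (i j) a_{j⁻¹ i} (w)`. -/
def act : Y → List Y → List Y
  | _, [] => []
  | i, j :: w => (i * j) :: act (j⁻¹ * i) w

/-- The inverse map of `act i`. -/
def unact : Y → List Y → List Y
  | _, [] => []
  | i, y :: w => (i⁻¹ * y) :: unact ((i⁻¹ * y)⁻¹ * i) w

theorem unact_act (i : Y) (w : List Y) : unact i (act i w) = w := by
  induction w generalizing i with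
  | nil => rfl
  | cons j w ih => simp only [act, unact, inv_mul_cancel_left, ih]

theorem act_unact (i : Y) (w : List Y) : act i (unact i w) = w := by
  induction w generalizing i with
  | nil => rfl
  | cons j w ih => simp only [act, unact, mul_inv_cancel_left, ih]

/-- The state `a_i` as a bijection of the set of words. -/
def gen (i : Y) : Equiv.Perm (List Y) := ⟨act i, unact i, unact_act i, act_unact i⟩

/-- The group generated by the states under composition. -/
def GY (Y : Type) [Group Y] : Subgroup (Equiv.Perm (List Y)) := Subgroup.closure (Set.range gen)

end Pool.Agent.MP_e17fb9_al.H47
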