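import Pool.Agent.MP_e17fb9_al.H47.Defs

/-!
The action on infinite sequences and the statements of the parts.
-/

namespace Pool.Agent.MP_e17fb9_al.H47

variable {Y : Type} [Group Y]

/-- states along the input `x` -/
def st (i : Y) (x : ℕ → Y) : ℕ → Y
  | 0 => i
  | k + 1 => (x k)⁻¹ * st i x k

/-- states along the output `y` -/
def ts (i : Y) (y : ℕ → Y) : ℕ → Y
  | 0 => i
  | k + 1 => (y k)⁻¹ * ts i y k * ts i y k

theorem ts_eq (i : Y) (x : ℕ → Y) (k : ℕ) : ts i (fun k => st i x k * x k) k = st i x k := by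
  induction k with
  | zero => rfl
  | succ k ih => simp only [ts, st, ih]; group

theorem st_eq (i : Y) (y : ℕ → Y) (k : ℕ) : st i (fun k => (ts i y k)⁻¹ * y k) k = ts i y k := by
  induction k with
  | zero => rfl
  | succ k ih => simp only [ts, st, ih]; group

/-- the state `a_i` acting on sequences -/
def sq (i : Y) : Equiv.Perm (ℕ → Y) where
  toFun x k := st i x k * x k
  invFun y k := (ts i y k)⁻¹ * y k
  left_inv x := funext fun k => by simp only [ts_eq, inv_mul_cancel_left]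
  right_inv y := funext fun k => by simp only [st_eq, mul_inv_cancel_left]

theorem sq_apply (i : Y) (x : ℕ → Y) (k : ℕ) : sq i x k = st i x k * x k := rfl

theorem sq_inv_apply (i : Y) (y : ℕ → Y) (k : ℕ) : (sq i)⁻¹ y k = (ts i y k)⁻¹ * y k := rfl

theorem ts_sq (i : Y) (x : ℕ → Y) (k : ℕ) : ts i (sq i x) k = st i x k := ts_eq i x k

theorem st_sq_inv (i : Y) (y : ℕ → Y) (k : ℕ) : st i ((sq i)⁻¹ y) k = ts i y k := st_eq i y k

theorem st_succ' (i : Y) (x : ℕ → Y) (k : ℕ) :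
    st i x (k + 1) = (sq i x k)⁻¹ * st i x k * st i x k := by
  simp only [st, sq_apply]; group

/-- the group generated, acting on sequences -/
def GS (Y : Type) [Group Y] : Subgroup (Equiv.Perm (ℕ → Y)) := Subgroup.closure (Set.range sq)

/-- evaluation of group words -/
def ev (Y : Type) [Group Y] : FreeGroup Y →* Equiv.Perm (ℕ → Y) := FreeGroup.lift sq

/-- `Y` has a nilpotent normal two-complement -/
def Cond (Y : Type) [Group Y] : Prop :=
  ∃ O : Subgroup Y, O.Normal ∧ Group.IsNilpotent O ∧ Odd (Nat.card O) ∧ ∃ k : ℕ, O.index = 2 ^ k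

/-- an element of odd order acting nontrivially on a `p`-subgroup, `p` prime to its order -/
def Act (Y : Type) [Group Y] : Prop :=
  ∃ (p : ℕ) (P : Subgroup Y) (g : Y), p.Prime ∧ IsPGroup p P ∧ Odd (orderOf g) ∧
    (orderOf g).Coprime p ∧ (∀ x ∈ P, g * x * g⁻¹ ∈ P) ∧ ∃ x ∈ P, g * x ≠ x * g

/-- a subgroup with an affine action on a field -/
def Aff (Y : Type) [Group Y] : Prop :=
  ∃ (H : Type) (_ : Group H) (ι : H →* Y) (K : Type) (_ : Field K) (μ : H →* Kˣ) (l : H → K)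
    (g h : H) (q : ℕ), Function.Injective ι ∧ (∀ a b, l (a * b) = l a + μ a * l b) ∧ μ h = 1 ∧
    l h ≠ 0 ∧ μ g ≠ 1 ∧ Odd q ∧ μ g ^ q = 1

def S_Frob : Prop := ∀ (Y : Type) [Group Y] [Finite Y], ¬Cond Y → Act Y

def S_Aff : Prop := ∀ (Y : Type) [Group Y] [Finite Y], Act Y → Aff Y

def S_Free : Prop := ∀ (Y : Type) [Group Y], Aff Y →
  ∃ f : FreeGroup (Fin 2) →* FreeGroup Y, Function.Injective ((ev Y).comp f)

def S_LF : Prop := ∀ (Y : Type) [Group Y] [Finite Y], Cond Y →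
  ∃ N : Subgroup (Equiv.Perm (ℕ → Y)), (∀ i j : Y, (sq i)⁻¹ * sq j ∈ N) ∧
    (∀ f ∈ N, sq 1 * f * (sq 1)⁻¹ ∈ N ∧ (sq 1)⁻¹ * f * sq 1 ∈ N) ∧
    ∀ H : Subgroup (Equiv.Perm (ℕ → Y)), H ≤ N → H.FG → Finite H

def S_Inf : Prop := ∀ (Y : Type) [Group Y] [Finite Y] [Nontrivial Y], ¬IsOfFinOrder (sq (1 : Y))

end Pool.Agent.MP_e17fb9_al.H47
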