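import Pool.Agent.MP_e17fb9_al.H47.Ser
import Pool.Agent.MP_e17fb9_al.H47.Seq

/-!
The free subgroup.
-/

open Function Finset

noncomputable section

namespace Pool.Agent.MP_e17fb9_al.H47

section
variable {Y Y' : Type} [Group Y] [Group Y'] (π : Y →* Y')

theorem st_map (i : Y) (x : ℕ → Y) (k : ℕ) : st (π i) (π ∘ x) k = π (st i x k) := by
  induction k with
  | zero => rfl
  | succ k ih => simp [st, ih]

theorem sq_map (i : Y) (x : ℕ → Y) : sq (π i) (π ∘ x) = π ∘ sq i x :=
  funext fun k => by simp [sq_apply, st_map]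

theorem ev_map (w : FreeGroup Y) : ∀ x : ℕ → Y, ev Y' (FreeGroup.map π w) (π ∘ x) = π ∘ ev Y w x := by
  induction w using FreeGroup.induction_on with
  | C1 => simp
  | of i => simpa [ev] using sq_map π i
  | inv_of i _ =>
    intro x
    simp only [ev, map_inv, FreeGroup.map.of, FreeGroup.lift_apply_of]
    rw [Equiv.Perm.inv_eq_iff_eq, sq_map]
    simp
  | mul a b ha hb => simp [ha, hb]

end

variable {K : Type} [Field K]

theorem isUnit_V (t : ℕ → Kˣ) (c : K) : IsUnit (1 - c • V t) := by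
  refine (Module.End.isUnit_iff _).2 ⟨(injective_iff_map_eq_zero _).2 fun u hu => funext fun k => ?_,
    fun v => ?_⟩
  · induction k using Nat.strong_induction_on with
    | _ k ih =>
      have := congrFun hu k
      have e : ps t u k = 0 := sum_eq_zero fun j hj => by simp [ih j (mem_range.1 hj)]
      simpa [V_apply, e] using this
  · let s : ℕ → K := fun k => Nat.rec 0 (fun k s => s + (((t k)⁻¹ : Kˣ) : K) ^ 2 * (v k + c * (t k * s))) k
    have e : ∀ k, ps t (fun k => v k + c * (t k * s k)) k = s k := fun k => by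
      induction k with
      | zero => simp [ps, s]
      | succ k ih => rw [ps_succ, ih]
    exact ⟨fun k => v k + c * (t k * s k), funext fun k => by simp [V_apply, e]⟩

/-- the unit `1 - c V` -/
def wu (t : ℕ → Kˣ) (c : K) : (Module.End K (ℕ → K))ˣ := (isUnit_V t c).unit

/-- diagonal operators -/
def dl (t : ℕ → Kˣ) : Module.End K (ℕ → K) where
  toFun v k := t k * v k
  map_add' v w := funext fun k => by simp [mul_add]
  map_smul' c v := funext fun k => by simp [mul_left_comm]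

/-- diagonal units -/
def dg (t : ℕ → Kˣ) : (Module.End K (ℕ → K))ˣ where
  val := dl t
  inv := dl t⁻¹
  val_inv := LinearMap.ext fun v => funext fun k => by simp [dl]
  inv_val := LinearMap.ext fun v => funext fun k => by simp [dl]

theorem dg_smul (γ : Kˣ) (t : ℕ → Kˣ) : dg ((fun _ => γ) * t) = dg (fun _ => γ) * dg t :=
  Units.ext (LinearMap.ext fun v => funext fun k => by simp [dg, dl, mul_assoc])

theorem dg_comm (γ : Kˣ) (u : (Module.End K (ℕ → K))ˣ) : dg (fun _ => γ) * u = u * dg fun _ => γ :=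
  Units.ext (LinearMap.ext fun v => (u.val.map_smul (γ : K) v).symm)

theorem wu_smul (γ : Kˣ) (t : ℕ → Kˣ) : wu ((fun _ => γ) * t) 1 = wu t ((γ⁻¹ : Kˣ) : K) :=
  Units.ext (LinearMap.ext fun v => funext fun k => by
    simp only [wu, IsUnit.unit_spec, LinearMap.sub_apply, LinearMap.smul_apply, Pi.sub_apply,
      Pi.smul_apply, V_apply, ps, Pi.mul_apply, smul_eq_mul, mul_sum, mul_inv, Units.val_mul,
      Units.val_inv_eq_inv_val]
    congr 1
    refine sum_congr rfl fun j _ => ?_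
    have := γ.ne_zero
    field_simp)

variable (r : ℕ → Kˣ)

/-- the unit `1 - c X` of the algebra of pairs -/
def uu (b : Bool) (c : K) : (Al K)ˣ :=
  (Prod.isUnit_iff.2 ⟨Pi.isUnit_iff.2 fun t => isUnit_V (t * wt r b) c, by
    simpa [el, gn] using (el b c)⁻¹.isUnit⟩ : IsUnit (1 - c • gn r b)).unit

/-- units all of whose quotients exist -/
def SF : Subgroup (Al K)ˣ where
  carrier := {u | ∀ n, u.val ∈ F r n ∧ (u⁻¹).val ∈ F r n}
  one_mem' n := ⟨by simpa using F_const (r := r) n (1 : K), by simpa using F_const (r := r) n (1 : K)⟩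
  mul_mem' ha hb n := ⟨F_mul n _ (ha n).1 _ (hb n).1, by
    rw [mul_inv_rev]; exact F_mul n _ (hb n).2 _ (ha n).2⟩
  inv_mem' ha n := ⟨(ha n).2, (ha n).1⟩

theorem uu_mem (b : Bool) (c : K) : uu r b c ∈ SF r := fun n => by
  have e : (uu r b c).val = 1 - c • gn r b := rfl
  refine ⟨F_mono n _ ?_, F_fix (b := b) (c := c) ?_ n⟩
  · have e' : (uu r b c).val = (1 : K) • 1 + gn r b * (-c) • 1 :=
      Prod.ext (funext fun t => LinearMap.ext fun v => by simp [e, sub_eq_add_neg])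
        (LinearMap.ext fun v => by simp [e, sub_eq_add_neg])
    exact e' ▸ F_step b 1 (F_const n (-c))
  · have := (uu r b c).mul_inv
    rw [e, sub_mul, one_mul, sub_eq_iff_eq_add] at this
    simpa using this

variable {H : Type} [Group H] (μ : H →* Kˣ) (l : H → K)

/-- `f` maps multipliers `σ` to `σ'` with linear part `L` -/
def Lin (f : Equiv.Perm (ℕ → H)) (σ σ' : ℕ → Kˣ) (L : Module.End K (ℕ → K)) : Prop :=
  ∀ x x' : ℕ → H, (∀ k, μ (x k) = σ k) → (∀ k, μ (x' k) = σ k) → (∀ k, μ (f x k) = σ' k) ∧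
    (fun k => l (f x' k) - l (f x k)) = L fun k => l (x' k) - l (x k)

/-- two-sided version -/
def Lin2 (f : Equiv.Perm (ℕ → H)) (σ σ' : ℕ → Kˣ) (L : (Module.End K (ℕ → K))ˣ) : Prop :=
  Lin μ l f σ σ' L.val ∧ Lin μ l f⁻¹ σ' σ (L⁻¹).val

variable {μ l} {f f' : Equiv.Perm (ℕ → H)} {σ σ' σ'' : ℕ → Kˣ}

theorem Lin.mul {L L' : Module.End K (ℕ → K)} (h' : Lin μ l f' σ' σ'' L') (h : Lin μ l f σ σ' L) :
    Lin μ l (f' * f) σ σ'' (L' * L) := fun x x' a b => by
  obtain ⟨h1, h2⟩ := h' _ _ (h x x' a b).1 (h x' x b a).1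
  exact ⟨h1, h2.trans (congrArg L' (h x x' a b).2)⟩

theorem Lin2.mul {L L' : (Module.End K (ℕ → K))ˣ} (h' : Lin2 μ l f' σ' σ'' L')
    (h : Lin2 μ l f σ σ' L) : Lin2 μ l (f' * f) σ σ'' (L' * L) :=
  ⟨h'.1.mul h.1, by rw [mul_inv_rev, mul_inv_rev]; exact h.2.mul h'.2⟩

theorem Lin2.inv {L : (Module.End K (ℕ → K))ˣ} (h : Lin2 μ l f σ σ' L) : Lin2 μ l f⁻¹ σ' σ L⁻¹ :=
  ⟨h.2, h.1⟩

theorem lin2_one : Lin2 μ l 1 σ σ 1 := ⟨fun _ _ a _ => ⟨a, rfl⟩, fun _ _ a _ => ⟨a, rfl⟩⟩

theorem lin_sq (hl : ∀ a b, l (a * b) = l a + μ a * l b) {i : H} {t : ℕ → Kˣ} (h0 : t 0 = μ i) :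
    Lin2 μ l (sq i) (fun k => t k * (t (k + 1))⁻¹) (fun k => t k ^ 2 * (t (k + 1))⁻¹)
      (wu t 1 * dg t) := by
  have hs : ∀ x : ℕ → H, (∀ k, μ (x k) = t k * (t (k + 1))⁻¹) → ∀ k, μ (st i x k) = t k :=
    fun x a k => by
      induction k with
      | zero => exact h0.symm
      | succ k ih => simp [st, a, ih]
  have ht : ∀ y : ℕ → H, (∀ k, μ (y k) = t k ^ 2 * (t (k + 1))⁻¹) → ∀ k, μ (ts i y k) = t k :=
    fun x a k => by
      induction k with
      | zero => exact h0.symm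
      | succ k ih => simp [ts, a, ih, pow_two, mul_assoc]
  have h1 : Lin μ l (sq i) (fun k => t k * (t (k + 1))⁻¹) (fun k => t k ^ 2 * (t (k + 1))⁻¹)
      (wu t 1 * dg t).val := fun x x' a b => by
    refine ⟨fun k => by simp [sq_apply, hs x a, a, pow_two, mul_assoc], funext fun k => ?_⟩
    have w : ∀ k, l (st i x' k) - l (st i x k) =
        -(t k * ps t (fun k => t k * (l (x' k) - l (x k))) k) := fun k => by
      induction k with
      | zero => simp [st, ps]
      | succ k ih =>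
        have e1 := hl (x k) (st i x (k + 1))
        have e2 := hl (x' k) (st i x' (k + 1))
        rw [st, mul_inv_cancel_left, ← st, a] at e1
        rw [st, mul_inv_cancel_left, ← st, b] at e2
        rw [ps_succ]
        simp only [Units.val_mul, Units.val_inv_eq_inv_val] at e1 e2 ⊢
        have g1 : (t k : K)⁻¹ * t k = 1 := inv_mul_cancel₀ (t k).ne_zero
        have g2 : (t (k + 1) : K)⁻¹ * t (k + 1) = 1 := inv_mul_cancel₀ (t (k + 1)).ne_zero
        generalize ps t (fun k => t k * (l (x' k) - l (x k))) k = s at *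
        linear_combination (t (k + 1) : K) * (t k : K)⁻¹ * (ih + e1 - e2) -
          (l (st i x' (k + 1)) - l (st i x (k + 1))) * ((t k : K)⁻¹ * t k * g2 + g1) -
          (t (k + 1) : K) * s * g1 + (t (k + 1) : K) * (t k : K)⁻¹ * (l (x' k) - l (x k)) * g1
    change _ = (1 - (1 : K) • V t) (fun k => t k * (l (x' k) - l (x k))) k
    simp only [sq_apply, hl, hs x a, hs x' b, one_smul, LinearMap.sub_apply, Pi.sub_apply, V_apply,
      Module.End.one_apply]
    linear_combination w k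
  have h2 : ∀ y : ℕ → H, (∀ k, μ (y k) = t k ^ 2 * (t (k + 1))⁻¹) → ∀ k,
      μ ((sq i)⁻¹ y k) = t k * (t (k + 1))⁻¹ := fun y a k => by
    simp [sq_inv_apply, ht y a, a, pow_two, mul_assoc]
  refine ⟨h1, fun y y' a b => ⟨h2 y a, ?_⟩⟩
  have := (h1 _ _ (h2 y a) (h2 y' b)).2
  simp only [Equiv.Perm.coe_inv, Equiv.apply_symm_apply] at this ⊢
  rw [this, ← Module.End.mul_apply, Units.inv_mul, Module.End.one_apply]

/-- the two words -/
def wd (g : H) (m : ℕ) : FreeGroup H :=
  .of g * (.of (g ^ (m + 1)))⁻¹ * .of (g ^ m) * (.of 1)⁻¹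

theorem lin_wd (hl : ∀ a b, l (a * b) = l a + μ a * l b) {g : H} {r t : ℕ → Kˣ} (h0 : t 0 = 1)
    (r0 : r 0 = μ g) (hr : ∀ k, r (k + 1) = r k ^ 2) (m : ℕ) :
    Lin2 μ l (ev H (wd g m)) (fun k => t k ^ 2 * (t (k + 1))⁻¹) (fun k => t k ^ 2 * (t (k + 1))⁻¹)
      (wu (t * r) 1 * (wu (t * r) ((μ g ^ m)⁻¹ : Kˣ))⁻¹ * wu t ((μ g ^ m)⁻¹ : Kˣ) * (wu t 1)⁻¹) := by
  have a1 := (lin_sq hl (i := 1) (t := t) (by simp [h0])).inv
  have a2 := lin_sq hl (i := g ^ m) (t := (fun _ => μ g ^ m) * t) (by simp [h0])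
  have a3 := (lin_sq hl (i := g ^ (m + 1)) (t := (fun _ => μ g ^ m) * (t * r))
    (by simp [h0, r0, pow_succ])).inv
  have a4 := lin_sq hl (i := g) (t := t * r) (by simp [h0, r0])
  have x1 : ∀ t : ℕ → Kˣ, (fun k => ((fun _ => μ g ^ m) * t : ℕ → Kˣ) k *
      (((fun _ => μ g ^ m) * t : ℕ → Kˣ) (k + 1))⁻¹) =
      fun k => t k * (t (k + 1))⁻¹ := fun t => funext fun k => by
    simp [mul_comm, mul_left_comm]
  have y1 : ∀ t : ℕ → Kˣ, (fun k => (t * r) k ^ 2 * ((t * r) (k + 1))⁻¹) =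
      fun k => t k ^ 2 * (t (k + 1))⁻¹ := fun t => funext fun k => by
    simp [hr, mul_pow, mul_comm, mul_left_comm]
  rw [x1] at a2 a3
  rw [← mul_assoc, y1, mul_assoc] at a3
  rw [y1] at a4
  have := ((a4.mul a3).mul a2).mul a1
  rw [wu_smul, wu_smul, dg_smul, dg_smul, ← mul_assoc (wu t _), ← dg_comm, ← mul_assoc (wu (t * r) _),
    ← dg_comm] at this
  simpa [ev, wd, mul_assoc] using this

theorem sFree : S_Free := by
  rintro Y _ ⟨H, _, ι, K, _, μ, l, g, h, q, hι, hl, h1, hd, hη, hq, hg⟩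
  have co : ∀ k, μ g ^ 2 ^ k ≠ 1 := fun k e => hη (by
    simpa [(hq.coprime_two_left.pow_left k).gcd_eq_one] using pow_gcd_eq_one.2 ⟨e, hg⟩)
  set r : ℕ → Kˣ := fun k => μ g ^ 2 ^ k
  have hr : ∀ k, r (k + 1) = r k ^ 2 := fun k => by simp [r, pow_succ, pow_mul]
  let γ : Fin 2 → Kˣ := fun m => (μ g ^ (m.val + 1))⁻¹
  let G : FreeGroup (Fin 2) →* (Al K)ˣ := FreeGroup.lift fun m =>
    uu r true 1 * (uu r true (γ m))⁻¹ * uu r false (γ m) * (uu r false 1)⁻¹
  let f : FreeGroup (Fin 2) →* FreeGroup H := FreeGroup.lift fun m => wd g (m.val + 1)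
  refine ⟨(FreeGroup.map ι).comp f, (injective_iff_map_eq_one _).2 fun w hw => ?_⟩
  have hw' : ev H (f w) = 1 := Equiv.ext fun x => funext fun k => hι (by
    have := ev_map ι (f w) x
    rw [show ev Y (FreeGroup.map ι (f w)) = 1 from hw] at this
    exact (congrFun this k).symm)
  have hG : G w ∈ SF r := (FreeGroup.range_lift_le (by
    rintro _ ⟨m, rfl⟩
    exact mul_mem (mul_mem (mul_mem (uu_mem r _ _) (inv_mem (uu_mem r _ _))) (uu_mem r _ _))
      (inv_mem (uu_mem r _ _)))) ⟨w, rfl⟩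
  have hz : Z (μ g) (l h) ((G w).val + (-1 : K) • 1).1 := fun t t0 ht v hv k => by
    let e : Al K →* Module.End K (ℕ → K) := (Pi.evalMonoidHom _ t).comp (MonoidHom.fst _ _)
    have eu : ∀ b c, Units.map e (uu r b c) = wu (t * wt r b) c := fun b c => Units.ext rfl
    have L : ∀ w, Lin2 μ l (ev H (f w)) (fun k => t k ^ 2 * (t (k + 1))⁻¹)
        (fun k => t k ^ 2 * (t (k + 1))⁻¹) (Units.map e (G w)) := fun w => by
      have L0 : ∀ m : Fin 2, Lin2 μ l (ev H (f (.of m))) (fun k => t k ^ 2 * (t (k + 1))⁻¹)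
          (fun k => t k ^ 2 * (t (k + 1))⁻¹) (Units.map e (G (.of m))) := fun m => by
        simpa [f, G, eu, wt, γ] using lin_wd (g := g) hl t0 (by simp [r]) hr (m.val + 1)
      induction w using FreeGroup.induction_on with
      | C1 => simpa using lin2_one
      | of m => exact L0 m
      | inv_of m _ => simpa using (L0 m).inv
      | mul a b ha hb => simpa using ha.mul hb
    have n : ∀ k, ∃ y, μ y = t k := fun k => (ht k).elim (fun a => ⟨1, by simp [a]⟩) fun a => ⟨g, a.symm⟩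
    choose n hn using n
    have n' : ∀ k, ∃ y, μ y = 1 ∧ ∀ x, l (y * x) - l x = v k := fun k => (hv k).elim
      (fun a => ⟨1, by simp [a]⟩) fun a => ⟨h, h1, fun x => by simp [hl, h1, a]⟩
    choose y hy hy' using n'
    have := ((L w).1 (fun k => n k ^ 2 * (n (k + 1))⁻¹) (fun k => y k * (n k ^ 2 * (n (k + 1))⁻¹))
      (fun k => by simp [hn]) fun k => by simp [hn, hy]).2
    rw [hw'] at this
    simp only [Equiv.Perm.coe_one, id, hy'] at this
    have := congrFun this k
    simpa [e, add_neg_eq_zero] using this.symm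
  have := zero_of_Z hη hd hr co (fun n => F_add n _ (hG n).1 _ (F_const n (-1))) hz
  have es : ∀ b c, Units.map (MonoidHom.snd _ _) (uu r b c) = el b (-c) := fun b c =>
    Eq.trans (b := (el b c)⁻¹) (Units.ext rfl) (el_neg b c)
  have hp := ping (fun m => (γ m : K) - 1) (fun m => sub_ne_zero.2 (by
    fin_cases m
    · simpa [γ] using hη
    · exact fun e => co 1 (inv_eq_one.1 (Units.ext e)))) (fun a b e => by
      have e' : γ a = γ b := Units.ext (sub_left_injective e)
      fin_cases a <;> fin_cases b <;> simp_all [γ, pow_two])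
  refine (injective_iff_map_eq_one _).1 hp w ?_
  have e2 : (FreeGroup.lift fun m => el true ((γ m : K) - 1) * el false (-((γ m : K) - 1))) =
      (Units.map (MonoidHom.snd _ _)).comp G := FreeGroup.ext_hom _ _ fun m => by
    simp only [G, FreeGroup.lift_apply_of, MonoidHom.comp_apply, map_mul, map_inv, es, el_neg,
      ← el_add, mul_assoc]
    rw [← mul_assoc, ← el_add]
    congr 2 <;> ring
  rw [e2]
  refine Units.ext (LinearMap.ext fun v => ?_)
  simpa [add_neg_eq_zero] using LinearMap.congr_fun this v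

end Pool.Agent.MP_e17fb9_al.H47
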