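import Pool.Agent.MP_e17fb9_al.H47.Loc

/-!
The locally finite normal subgroup.
-/

open Function Subgroup

noncomputable section

namespace Pool.Agent.MP_e17fb9_al.H47

variable {Y : Type} [Group Y] (O : Subgroup Y) [O.Normal]

/-- elements acting on tails trivially modulo `O`, and equivariantly on each layer of `O` -/
def Om (K : ℕ) : Subgroup (Equiv.Perm (ℕ → Y)) where
  carrier := {f | f ∈ GS Y ∧ (∀ y k, K ≤ k → red O 0 (f y k) = red O 0 (y k)) ∧
    ∀ j (v y : ℕ → Y), (∀ k, v k ∈ O.lowerCentralSeries j) → (∀ k < K, v k = 1) →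
      ∀ k, red O (j + 1) (f (v * y) k) = red O (j + 1) ((v * f y) k)}
  one_mem' := ⟨one_mem _, fun _ _ _ => rfl, fun _ _ _ _ _ _ => rfl⟩
  mul_mem' := fun {f g} hf hg => ⟨mul_mem hf.1 hg.1,
    fun y k hk => (hf.2.1 _ k hk).trans (hg.2.1 y k hk),
    fun j v y a b k => (resp' _ hf.1 (hg.2.2 j v y a b) k).trans (hf.2.2 j v _ a b k)⟩
  inv_mem' := fun {f} hf => ⟨inv_mem hf.1, fun y k hk => by simpa using (hf.2.1 (f⁻¹ y) k hk).symm,
    fun j v y a b k => by
      simpa using (resp' _ (inv_mem hf.1) (hf.2.2 j v (f⁻¹ y) a b) k).symm⟩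

theorem Om_mono {K K' : ℕ} (h : K ≤ K') : Om O K ≤ Om O K' := fun _ hf =>
  ⟨hf.1, fun y k hk => hf.2.1 y k (h.trans hk), fun j v y a b => hf.2.2 j v y a fun k hk =>
    b k (hk.trans_le h)⟩

/-- the layers -/
def Mj (K j : ℕ) : Subgroup (Equiv.Perm (ℕ → Y)) where
  carrier := {f | f ∈ Om O K ∧ (∀ y k, red O j (f y k) = red O j (y k)) ∧ ∀ y, ∀ k < K, f y k = y k}
  one_mem' := ⟨one_mem _, fun _ _ => rfl, fun _ _ _ => rfl⟩
  mul_mem' := fun {f g} hf hg => ⟨mul_mem hf.1 hg.1, fun y k => (hf.2.1 _ k).trans (hg.2.1 y k),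
    fun y k hk => (hf.2.2 _ k hk).trans (hg.2.2 y k hk)⟩
  inv_mem' := fun {f} hf => ⟨inv_mem hf.1, fun y k => by simpa using (hf.2.1 (f⁻¹ y) k).symm,
    fun y k hk => by simpa using (hf.2.2 (f⁻¹ y) k hk).symm⟩

variable [Finite Y]

theorem lf_step (K j : ℕ) (h : LF (Mj O K (j + 1))) : LF (Mj O K j) := by
  refine LF.ext (F := (ℕ → Y) × ℕ → Y ⧸ O.lowerCentralSeries (j + 1)) (MonoidHom.mk'
    (fun f z => red O (j + 1) (z.1 z.2 * (f.1 z.1 z.2)⁻¹)) fun f g => funext fun z => ?_)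
    (lf_pi _) h fun f hf => ⟨f.2.1, fun y k => ?_, f.2.2.2⟩
  · have := f.2.1.2.2 j (g.1 z.1 * z.1⁻¹) z.1 (fun k => by
      simpa [div_eq_mul_inv] using QuotientGroup.eq_iff_div_mem.1 (g.2.2.1 z.1 k))
      (fun k hk => by simp [g.2.2.2 z.1 k hk]) z.2
    rw [inv_mul_cancel_right] at this
    simp only [Subgroup.coe_mul, Equiv.Perm.mul_apply, Pi.mul_apply, Pi.inv_apply, map_mul,
      map_inv] at this ⊢
    rw [this]
    group
  · have := congrFun hf (y, k)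
    simp only [MonoidHom.mk'_apply, map_mul, map_inv, Pi.one_apply, mul_inv_eq_one] at this
    exact this.symm

theorem lf_Om [Group.IsNilpotent O] (K : ℕ) : LF (Om O K) := by
  obtain ⟨c, hc⟩ := (O.isNilpotent_iff_lowerCentralSeries).1 ‹_›
  have h0 : ∀ c, LF (Mj O K c) → LF (Mj O K 0) := fun c => by
    induction c with
    | zero => exact id
    | succ c ih => exact fun h => ih (lf_step O K c h)
  have h1 : LF (Mj O K c) := fun H hH _ => by
    have : H = ⊥ := eq_bot_iff.2 fun f hf => Equiv.ext fun y => funext fun k => by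
      have := QuotientGroup.eq.1 ((hH hf).2.1 y k)
      rwa [hc, mem_bot, inv_mul_eq_one] at this
    rw [this]
    infer_instance
  let ex : (Fin K → Y) → ℕ → Y := fun u k => if h : k < K then u ⟨k, h⟩ else 1
  have r : ∀ f ∈ Om O K, ∀ (y : ℕ → Y) (k : Fin K), f (ex fun k => y k) k = f y k := fun f hf y k =>
    (resp (MonoidHom.id Y) hf.1 K _ _).1 (fun k hk => by simp [ex, hk]) k k.2
  let φ : Om O K →* Function.End (Fin K → Y) :=
    { toFun := fun f u k => f.1 (ex u) k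
      map_one' := funext fun u => funext fun k => by simp [ex, Function.End.one_def]
      map_mul' := fun f g => funext fun u => funext fun k => (r _ f.2 _ k).symm }
  refine LF.ext φ.toHomPerm (fun _ _ => inferInstance) (h0 c h1) fun f hf => ?_
  have e : ∀ y, ∀ k < K, f.1 y k = y k := fun y k hk =>
    (r _ f.2 y ⟨k, hk⟩).symm.trans (congrFun (congrArg (fun p : Equiv.Perm (Fin K → Y) =>
      p fun k => y k) hf) ⟨k, hk⟩)
  exact ⟨f.2, fun y k => (lt_or_ge k K).elim (fun h => by rw [e y k h]) (f.2.2.1 y k), e⟩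

omit [Finite Y] in
theorem Om_conj {K0 : ℕ} (hs : ∀ (y s s' : ℕ → Y ⧸ O.lowerCentralSeries 0) (K : ℕ),
    (∀ k, K ≤ k → s (k + 1) = (y k)⁻¹ * s k * s k) →
      (∀ k, K ≤ k → s' (k + 1) = (y k)⁻¹ * s' k * s' k) → ∀ k, K + K0 ≤ k → s k = s' k)
    {K : ℕ} {f : Equiv.Perm (ℕ → Y)} (hf : f ∈ Om O K) (i j : Y) :
    (sq i)⁻¹ * f * sq j ∈ Om O (K + K0) := by
  have e : ∀ x, sq i (((sq i)⁻¹ * f * sq j) x) = f (sq j x) := fun x => by simp
  have a : ∀ x k, K + K0 ≤ k → red O 0 (st j x k) = red O 0 (st i (((sq i)⁻¹ * f * sq j) x) k) :=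
    fun x => hs (fun k => red O 0 (sq j x k)) _ _ K (fun k _ => by simp only [st_succ', map_mul, map_inv])
      fun k hk => by simp only [st_succ', map_mul, map_inv, e, hf.2.1 _ k hk]
  have b : ∀ x k, K + K0 ≤ k → red O 0 (((sq i)⁻¹ * f * sq j) x k) = red O 0 (x k) := fun x k hk => by
    have := hf.2.1 (sq j x) k (le_self_add.trans hk)
    rw [← e, sq_apply, sq_apply, map_mul, map_mul, a x k hk] at this
    exact mul_left_cancel this
  refine ⟨mul_mem (mul_mem (inv_mem (sq_mem i)) hf.1) (sq_mem j), b, fun n v x h1 h2 k => ?_⟩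
  obtain ⟨u, u', m1, m2, e1, e2, e3⟩ := affine h1 h2 (fun k hk => (b x k hk).symm) (a x)
  have := resp' (red O (n + 1)) (inv_mem (sq_mem i)) (x := f (sq j (v * x)))
    (x' := sq i (v * ((sq i)⁻¹ * f * sq j) x)) (fun k => by
      rw [e1, e2, hf.2.2 n u _ m1 fun k hk => m2 k (hk.trans_le le_self_add), e]
      simp only [Pi.mul_apply, map_mul, e3]) k
  simpa using this

theorem sLF : S_LF := by
  rintro Y _ _ ⟨O, _, _, -, e, he⟩
  have hp : IsPGroup 2 (Y ⧸ O.lowerCentralSeries 0) := IsPGroup.of_card he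
  have := hp.isNilpotent
  obtain ⟨K0, hs⟩ := sync (P := Y ⧸ O.lowerCentralSeries 0) (e := e) fun x => he ▸ pow_card_eq_one'
  have up : ∀ {K f}, f ∈ Om O K → ∀ m, (sq 1 ^ m)⁻¹ * f * sq 1 ^ m ∈ Om O (K + m * K0) :=
    fun {K f} hf m => by
      induction m with
      | zero => simpa using hf
      | succ m ih => simpa [pow_succ, mul_assoc, add_mul, add_assoc] using Om_conj O hs ih 1 1
  have ev : ∀ {f : Equiv.Perm (ℕ → Y)}, (∃ n K, (sq 1 ^ n)⁻¹ * f * sq 1 ^ n ∈ Om O K) →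
      ∀ᶠ n in Filter.atTop, ∀ᶠ K in Filter.atTop, (sq 1 ^ n)⁻¹ * f * sq 1 ^ n ∈ Om O K := by
    rintro f ⟨n, K, h⟩
    filter_upwards [Filter.eventually_ge_atTop n] with m hm
    obtain ⟨m, rfl⟩ := Nat.exists_eq_add_of_le hm
    filter_upwards [Filter.eventually_ge_atTop (K + m * K0)] with K' hK
    simpa [pow_add, mul_assoc] using Om_mono O hK (up h m)
  refine ⟨⟨⟨⟨{f | ∃ n K, (sq 1 ^ n)⁻¹ * f * sq 1 ^ n ∈ Om O K}, fun a b => ?_⟩,
    0, 0, by simp⟩, fun ⟨n, K, h⟩ => ⟨n, K, by simpa [mul_assoc] using inv_mem h⟩⟩,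
    fun i j => ⟨0, 0 + K0, by simpa using Om_conj O hs (K := 0) (one_mem _) i j⟩,
    fun f ⟨n, K, h⟩ => ⟨⟨n + 1, K, by simpa [pow_succ', mul_assoc] using h⟩, n, K + K0, ?_⟩,
    fun H hH fg => ?_⟩
  · obtain ⟨n, a, b⟩ := ((ev a).and (ev b)).exists
    obtain ⟨K, a, b⟩ := (a.and b).exists
    exact ⟨n, K, by simpa [mul_assoc] using mul_mem a b⟩
  · have := Om_conj O hs h 1 1
    rw [show (sq 1 ^ n)⁻¹ * ((sq 1)⁻¹ * f * sq 1) * sq 1 ^ n =
      (sq 1)⁻¹ * ((sq 1 ^ n)⁻¹ * f * sq 1 ^ n) * sq (1 : Y) by group]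
    exact this
  · obtain ⟨T, rfl⟩ := id fg
    obtain ⟨n, h⟩ := ((Filter.eventually_all_finset T).2 fun t ht =>
      ev (hH (subset_closure ht))).exists
    obtain ⟨K, h⟩ := ((Filter.eventually_all_finset T).2 h).exists
    refine (lf_Om O K).of_map fg (f := (MulAut.conj (sq 1 ^ n)).symm.toMonoidHom)
      (MulEquiv.injective _) (map_le_iff_le_comap.2 ((closure_le _).2 fun t ht => ?_))
    exact h t ht

end Pool.Agent.MP_e17fb9_al.H47
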