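import Pool.Agent.MP_e17fb9_al.H47.Seq

/-!
Locally finite subgroups; congruences respected by the automaton group.
-/

open Function Subgroup

noncomputable section

namespace Pool.Agent.MP_e17fb9_al.H47

section
variable {G F : Type} [Group G] [Group F]

/-- locally finite subgroups -/
def LF (N : Subgroup G) : Prop := ∀ H : Subgroup G, H ≤ N → H.FG → Finite H

theorem fg_map {H : Subgroup G} (h : H.FG) (f : G →* F) : (H.map f).FG := by
  obtain ⟨T, rfl⟩ := h
  classical
  exact ⟨T.image f, by rw [Finset.coe_image, MonoidHom.map_closure]⟩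

theorem LF.of_map {M : Subgroup F} (hM : LF M) {H : Subgroup G} (h : H.FG) {f : G →* F}
    (hf : Injective f) (hle : H.map f ≤ M) : Finite H :=
  have := hM _ hle (fg_map h f)
  Finite.of_equiv _ (H.equivMapOfInjective f hf).symm.toEquiv

theorem LF.ext {N M : Subgroup G} (φ : N →* F) (hF : ∀ S : Subgroup F, S.FG → Finite S) (hM : LF M)
    (hk : ∀ x : N, φ x = 1 → (x : G) ∈ M) : LF N := fun H hH fg => by
  have := (Group.fg_iff_subgroup_fg H).2 fg
  let ψ : H →* F := φ.comp (inclusion hH)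
  have h1 : Finite ψ.range := hF _ ((Group.fg_iff_subgroup_fg _).1 inferInstance)
  refine ψ.finite_iff_finite_ker_range.2 ⟨hM.of_map ((Group.fg_iff_subgroup_fg _).1 inferInstance)
    H.subtype_injective ?_, h1⟩
  rintro _ ⟨x, hx, rfl⟩
  exact hk _ hx

theorem lf_pi (X : Type) [Finite F] (S : Subgroup (X → F)) (h : S.FG) : Finite S := by
  obtain ⟨T, rfl⟩ := h
  let ty : X → T → F := fun x t => t.1 x
  have k : ∀ s ∈ closure (T : Set (X → F)), ∀ x x', ty x = ty x' → s x = s x' := fun s hs x x' e => by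
    induction hs using closure_induction with
    | mem t ht => exact congrFun e ⟨t, ht⟩
    | one => rfl
    | mul a b _ _ ha hb => simp [ha, hb]
    | inv a _ ha => simp [ha]
  refine Finite.of_injective (fun s (c : Set.range ty) => s.1 c.2.choose) fun a b e =>
    Subtype.ext (funext fun x => ?_)
  have hx : ty x ∈ Set.range ty := ⟨x, rfl⟩
  rw [← k _ a.2 _ _ hx.choose_spec, ← k _ b.2 _ _ hx.choose_spec]
  exact congrFun e ⟨_, hx⟩

end

variable {Y Y' : Type} [Group Y] [Group Y']

theorem resp (π : Y →* Y') {f : Equiv.Perm (ℕ → Y)} (hf : f ∈ GS Y) (K : ℕ) : ∀ x x' : ℕ → Y,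
    (∀ k < K, π (x k) = π (x' k)) ↔ ∀ k < K, π (f x k) = π (f x' k) := by
  induction hf using closure_induction with
  | mem _ h =>
    obtain ⟨i, rfl⟩ := h
    refine fun x x' => ⟨fun h k hk => ?_, fun h k hk => ?_⟩
    · have : ∀ k ≤ K, π (st i x k) = π (st i x' k) := fun k hk => by
        induction k with
        | zero => rfl
        | succ k ih => simp [st, ih (Nat.le_of_succ_le hk), h k hk]
      simp [sq_apply, this k hk.le, h k hk]
    · have : ∀ k ≤ K, π (st i x k) = π (st i x' k) := fun k hk => by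
        induction k with
        | zero => rfl
        | succ k ih => simp [st_succ', ih (Nat.le_of_succ_le hk), h k hk]
      simpa [sq_apply, this k hk.le] using h k hk
  | one => simp
  | mul a b _ _ ha hb => exact fun x x' => (hb x x').trans (ha _ _)
  | inv a _ ha => exact fun x x' => by simpa using (ha (a⁻¹ x) (a⁻¹ x')).symm

theorem resp' (π : Y →* Y') {f : Equiv.Perm (ℕ → Y)} (hf : f ∈ GS Y) {x x' : ℕ → Y}
    (h : ∀ k, π (x k) = π (x' k)) (k : ℕ) : π (f x k) = π (f x' k) :=
  (resp π hf (k + 1) x x').1 (fun k _ => h k) k k.lt_succ_self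

theorem sq_mem (i : Y) : sq i ∈ GS Y := subset_closure ⟨i, rfl⟩

instance lcs_normal (O : Subgroup Y) [O.Normal] : ∀ j, (O.lowerCentralSeries j).Normal
  | 0 => ‹_›
  | j + 1 => have := lcs_normal O j; commutator_normal _ _

/-- reduction modulo a term of the lower central series -/
abbrev red (O : Subgroup Y) [O.Normal] (j : ℕ) : Y →* Y ⧸ O.lowerCentralSeries j :=
  QuotientGroup.mk' _

theorem red_comm {O : Subgroup Y} [O.Normal] {j : ℕ} {a o : Y} (ha : a ∈ O.lowerCentralSeries j)
    (ho : o ∈ O) : red O (j + 1) a * red O (j + 1) o = red O (j + 1) o * red O (j + 1) a := by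
  rw [← commutatorElement_eq_one_iff_mul_comm, ← map_commutatorElement]
  exact (QuotientGroup.eq_one_iff _).2 (commutator_mem_commutator ha ho)

theorem red_conj {O : Subgroup Y} [O.Normal] {j : ℕ} {a g g' : Y} (ha : a ∈ O.lowerCentralSeries j)
    (h : red O 0 g = red O 0 g') : red O (j + 1) (g * a * g⁻¹) = red O (j + 1) (g' * a * g'⁻¹) := by
  have ho : g'⁻¹ * g ∈ O := QuotientGroup.eq.1 h.symm
  have := red_comm ha ho
  simp only [map_mul, map_inv] at this ⊢
  calc _ = red O (j + 1) g' * ((red O (j + 1) g')⁻¹ * red O (j + 1) g * red O (j + 1) a) *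
        (red O (j + 1) g)⁻¹ := by group
    _ = _ := by rw [← this]; group

theorem sync {P : Type} [Group P] [Group.IsNilpotent P] {e : ℕ} (he : ∀ x : P, x ^ 2 ^ e = 1) :
    ∃ K0, ∀ (y s s' : ℕ → P) (K : ℕ), (∀ k, K ≤ k → s (k + 1) = (y k)⁻¹ * s k * s k) →
      (∀ k, K ≤ k → s' (k + 1) = (y k)⁻¹ * s' k * s' k) → ∀ k, K + K0 ≤ k → s k = s' k := by
  obtain ⟨c, hc⟩ := (Subgroup.nilpotent_iff_lowerCentralSeries (G := P)).1 ‹_›
  refine ⟨c * e, fun y s s' K h h' k hk => ?_⟩
  have main : ∀ j k, K + j * e ≤ k → s' k * (s k)⁻¹ ∈ (⊤ : Subgroup P).lowerCentralSeries j := by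
    intro j
    induction j with
    | zero => exact fun _ _ => mem_top _
    | succ j ih =>
      have st : ∀ k, K + j * e ≤ k → ∀ m, red ⊤ (j + 1) (s' (k + m) * (s (k + m))⁻¹) =
          red ⊤ (j + 1) (s' k * (s k)⁻¹) ^ 2 ^ m := fun k hk m => by
        induction m with
        | zero => exact (pow_one _).symm
        | succ m ihm =>
          have hz := ih (k + m) (by omega)
          rw [pow_succ, pow_mul, ← ihm, ← add_assoc, h _ (by omega), h' _ (by omega)]
          obtain ⟨z, hz'⟩ : ∃ z, s' (k + m) = z * s (k + m) := ⟨_, (inv_mul_cancel_right _ _).symm⟩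
          rw [hz', mul_inv_cancel_right] at hz ⊢
          have c1 := red_comm hz (mem_top (s (k + m)))
          have c2 := red_comm (mul_mem hz hz) (mem_top (y (k + m)))
          simp only [map_mul, map_inv] at c2 ⊢
          calc _ = (red ⊤ (j + 1) (y (k + m)))⁻¹ * red ⊤ (j + 1) z * (red ⊤ (j + 1) (s (k + m)) *
                red ⊤ (j + 1) z) * (red ⊤ (j + 1) (s (k + m)))⁻¹ * red ⊤ (j + 1) (y (k + m)) := by group
            _ = (red ⊤ (j + 1) (y (k + m)))⁻¹ * (red ⊤ (j + 1) z * red ⊤ (j + 1) z *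
                red ⊤ (j + 1) (y (k + m))) := by rw [← c1]; group
            _ = _ := by rw [c2, inv_mul_cancel_left, pow_two]
      intro k hk
      obtain ⟨k, rfl⟩ : ∃ k', k = k' + e := ⟨k - e, by rw [add_mul] at hk; omega⟩
      have := st k (by rw [add_mul] at hk; omega) e
      rw [← map_pow, he, map_one] at this
      exact (QuotientGroup.eq_one_iff _).1 this
  have := main c k hk
  rw [hc, mem_bot, mul_inv_eq_one] at this
  exact this.symm

theorem affine {O : Subgroup Y} [O.Normal] {n K : ℕ} {i j : Y} {x x' v : ℕ → Y}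
    (hv : ∀ k, v k ∈ O.lowerCentralSeries n) (hK : ∀ k < K, v k = 1)
    (hx : ∀ k, K ≤ k → red O 0 (x k) = red O 0 (x' k))
    (hs : ∀ k, K ≤ k → red O 0 (st i x k) = red O 0 (st j x' k)) :
    ∃ u u' : ℕ → Y, (∀ k, u k ∈ O.lowerCentralSeries n) ∧ (∀ k < K, u k = 1) ∧
      sq i (v * x) = u * sq i x ∧ sq j (v * x') = u' * sq j x' ∧
      ∀ k, red O (n + 1) (u k) = red O (n + 1) (u' k) := by
  have hn := lcs_normal O n
  have w : ∀ (i : Y) (x : ℕ → Y) (k : ℕ), st i (v * x) (k + 1) * (st i x (k + 1))⁻¹ =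
      (x k)⁻¹ * ((v k)⁻¹ * (st i (v * x) k * (st i x k)⁻¹)) * (x k)⁻¹⁻¹ := fun i x k => by
    simp only [st, Pi.mul_apply]
    group
  have m : ∀ (i : Y) (x : ℕ → Y) (k : ℕ), st i (v * x) k * (st i x k)⁻¹ ∈ O.lowerCentralSeries n :=
    fun i x k => by
      induction k with
      | zero => simp [st]
      | succ k ih => exact w i x k ▸ hn.conj_mem _ (mul_mem (inv_mem (hv k)) ih) _
  have z : ∀ (i : Y) (x : ℕ → Y), ∀ k ≤ K, st i (v * x) k * (st i x k)⁻¹ = 1 := fun i x k hk => by
    induction k with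
    | zero => simp [st]
    | succ k ih => rw [w, ih (Nat.le_of_succ_le hk), hK k hk]; group
  have e : ∀ k, red O (n + 1) (st i (v * x) k * (st i x k)⁻¹) =
      red O (n + 1) (st j (v * x') k * (st j x' k)⁻¹) := fun k => by
    induction k with
    | zero => simp [st]
    | succ k ih =>
      rcases lt_or_ge k K with h | h
      · rw [z i x _ h, z j x' _ h]
      · rw [w, w, red_conj (g' := (x' k)⁻¹) (mul_mem (inv_mem (hv k)) (m i x k))
          (by rw [map_inv, map_inv, hx k h])]
        simp only [map_mul (red O (n + 1)) _ (x' k)⁻¹⁻¹, map_mul (red O (n + 1)) (x' k)⁻¹,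
          map_mul (red O (n + 1)) (v k)⁻¹, ih]
  refine ⟨fun k => st i (v * x) k * (st i x k)⁻¹ * (st i x k * v k * (st i x k)⁻¹),
    fun k => st j (v * x') k * (st j x' k)⁻¹ * (st j x' k * v k * (st j x' k)⁻¹),
    fun k => mul_mem (m i x k) (hn.conj_mem _ (hv k) _), fun k hk => by simp [z i x k hk.le, hK k hk],
    funext fun k => by simp only [sq_apply, Pi.mul_apply]; group,
    funext fun k => by simp only [sq_apply, Pi.mul_apply]; group, fun k => ?_⟩
  rw [map_mul, map_mul _ (st j (v * x') k * _), e]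
  rcases lt_or_ge k K with h | h
  · simp [hK k h]
  · rw [red_conj (hv k) (hs k h)]

end Pool.Agent.MP_e17fb9_al.H47
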