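import Pool.Agent.MP_e17fb9_al.H47.Seq

/-!
A coprime action on a `p`-subgroup gives an affine action on a field.
-/

namespace Pool.Agent.MP_e17fb9_al.H47

open Polynomial

namespace RAff

variable {Y : Type} [Group Y] {p : ℕ} [Fact p.Prime]

theorem exists_hom {P : Type} [Group P] [Finite P] [Nontrivial P] (hP : IsPGroup p P) :
    ∃ φ : P →* Multiplicative (ZMod p), ∃ x, φ x ≠ 1 := by
  have hp : p.Prime := Fact.out
  obtain ⟨n, hn, hc⟩ := hP.nontrivial_iff_card.1 inferInstance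
  obtain ⟨m, rfl⟩ : ∃ m, n = m + 1 := ⟨n - 1, by omega⟩
  obtain ⟨N, hN⟩ := Sylow.exists_subgroup_card_pow_prime (G := P) p (n := m)
    (hc ▸ pow_dvd_pow p (Nat.le_succ m))
  have hi : N.index = p := by
    have := N.card_mul_index
    rw [hN, hc, pow_succ] at this
    exact Nat.eq_of_mul_eq_mul_left (pow_pos hp.pos m) this
  have : N.Normal := Subgroup.normal_of_index_eq_minFac_card (by
    rw [hi, hc, hp.pow_minFac (Nat.succ_ne_zero m)])
  let e : P ⧸ N ≃* Multiplicative (ZMod p) := mulEquivOfPrimeCardEq (p := p) hi (by simp)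
  have hs : Function.Surjective (e.toMonoidHom.comp (QuotientGroup.mk' N)) :=
    e.surjective.comp (QuotientGroup.mk'_surjective N)
  obtain ⟨y, hy⟩ := exists_ne (1 : Multiplicative (ZMod p))
  obtain ⟨x, rfl⟩ := hs y
  exact ⟨_, x, hy⟩

omit [Fact p.Prime] in
theorem one_of {P : Subgroup Y} (hP : IsPGroup p P) {q : ℕ} (hq : q.Coprime p) {b : Y}
    (hb : b ∈ P) (h : b ^ q = 1) : b = 1 := by
  have h1 := hP.orderOf_coprime hq.symm ⟨b, hb⟩
  rw [Subgroup.orderOf_mk] at h1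
  exact orderOf_eq_one_iff.1 (h1.eq_one_of_dvd (orderOf_dvd_of_pow_eq_one h))

variable (K : Type) [Field K]

/-- functions which are additive on `P` -/
def E (P : Subgroup Y) : Submodule K (Y → K) where
  carrier := {f | ∀ x ∈ P, ∀ y ∈ P, f (x * y) = f x + f y}
  add_mem' hf hg x hx y hy := by simp only [Pi.add_apply, hf x hx y hy, hg x hx y hy]; ring
  zero_mem' x _ y _ := by simp
  smul_mem' c f hf x hx y hy := by simp only [Pi.smul_apply, hf x hx y hy, smul_add]

variable {K}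

theorem E_one {P : Subgroup Y} {f : Y → K} (hf : f ∈ E K P) : f 1 = 0 := by
  have := hf 1 P.one_mem 1 P.one_mem
  rw [mul_one] at this
  exact left_eq_add.1 this

theorem E_inv {P : Subgroup Y} {f : Y → K} (hf : f ∈ E K P) {x : Y} (hx : x ∈ P) :
    f x⁻¹ = -f x := by
  have := hf x⁻¹ (P.inv_mem hx) x hx
  rw [inv_mul_cancel, E_one hf] at this
  exact eq_neg_of_add_eq_zero_left this.symm

/-- conjugation as an operator -/
def T {P : Subgroup Y} {g : Y} (hg : ∀ x ∈ P, g * x * g⁻¹ ∈ P) : Module.End K (E K P) where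
  toFun f := ⟨fun x => f.1 (g * x * g⁻¹), fun x hx y hy => by
    rw [← f.2 _ (hg x hx) _ (hg y hy)]
    group⟩
  map_add' _ _ := rfl
  map_smul' _ _ := rfl

theorem T_pow {P : Subgroup Y} {g : Y} (hg : ∀ x ∈ P, g * x * g⁻¹ ∈ P) (n : ℕ) (f : E K P)
    (x : Y) : ((T hg ^ n) f).1 x = f.1 (g ^ n * x * (g ^ n)⁻¹) := by
  induction n generalizing x with
  | zero => simp
  | succ n ih =>
    rw [pow_succ', Module.End.mul_apply]
    refine (ih _).trans ?_
    rw [pow_succ]
    group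

theorem eig [Finite Y] [IsAlgClosed K] {P : Subgroup Y} {g : Y} (hg : ∀ x ∈ P, g * x * g⁻¹ ∈ P)
    (hq : (orderOf g : K) ≠ 0)
    (h : ∀ f ∈ E K P, ∀ η : K, η ≠ 1 → (∀ x, f (g * x * g⁻¹) = η * f x) → ∀ x ∈ P, f x = 0) :
    ∀ f ∈ E K P, ∀ x ∈ P, f (g * x * g⁻¹) = f x := by
  have h1 : (T (K := K) hg).IsSemisimple :=
    Module.End.isSemisimple_of_squarefree_aeval_eq_zero
      (X_pow_sub_one_separable_iff.2 hq).squarefree (by
        rw [map_sub, map_pow, aeval_X, map_one, sub_eq_zero]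
        ext f x
        rw [T_pow, pow_orderOf_eq_one]
        simp)
  intro f hf x hx
  have h2 : (⟨f, hf⟩ : E K P) ∈ ⨆ η : K, (T (K := K) hg).eigenspace η := by
    rw [h1.iSup_eigenspace_eq_top]; trivial
  refine Submodule.iSup_induction _ (motive := fun u : E K P => u.1 (g * x * g⁻¹) = u.1 x) h2
    (fun η u hu => ?_) rfl fun u v hu hv => ?_
  · have h3 : ∀ y, u.1 (g * y * g⁻¹) = η * u.1 y := fun y =>
      congrFun (congrArg Subtype.val (Module.End.mem_eigenspace_iff.1 hu)) y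
    by_cases hη : η = 1
    · rw [h3, hη, one_mul]
    · rw [h u.1 u.2 η hη h3 x hx, h u.1 u.2 η hη h3 _ (hg x hx)]
  · simp only [Submodule.coe_add, Pi.add_apply, hu, hv]

theorem main [Finite Y] [IsAlgClosed K] [Algebra (ZMod p) K] {g : Y}
    (hq : (orderOf g).Coprime p) (n : ℕ) : ∀ P : Subgroup Y, Nat.card P = n → IsPGroup p P →
      (∀ x ∈ P, g * x * g⁻¹ ∈ P) → (∃ x ∈ P, g * x ≠ x * g) →
      ∃ (Q : Subgroup Y) (f : Y → K) (η : K), IsPGroup p Q ∧ (∀ x ∈ Q, g * x * g⁻¹ ∈ Q) ∧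
        f ∈ E K Q ∧ η ≠ 1 ∧ (∀ x, f (g * x * g⁻¹) = η * f x) ∧ ∃ x ∈ Q, f x ≠ 0 := by
  classical
  have hp : p.Prime := Fact.out
  have : CharP K p := charP_of_injective_algebraMap (algebraMap (ZMod p) K).injective p
  induction n using Nat.strong_induction_on with
  | _ n ih =>
  rintro P rfl hP hg ⟨x, hx, hgx⟩
  by_contra hc
  have hK : (orderOf g : K) ≠ 0 := fun h =>
    (hp.coprime_iff_not_dvd.1 hq.symm) ((CharP.cast_eq_zero_iff K p _).1 h)
  have h1 := eig (K := K) hg hK fun f hf η hη h y hy => by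
    by_contra h0
    exact hc ⟨P, f, η, hP, hg, hf, hη, h, y, hy, h0⟩
  let F : Subgroup Y :=
    { carrier := {y | y ∈ P ∧ ∀ f ∈ E K P, f y = 0}
      mul_mem' := fun ha hb => ⟨P.mul_mem ha.1 hb.1, fun f hf => by
        rw [hf _ ha.1 _ hb.1, ha.2 f hf, hb.2 f hf, add_zero]⟩
      one_mem' := ⟨P.one_mem, fun f hf => E_one hf⟩
      inv_mem' := fun ha => ⟨P.inv_mem ha.1, fun f hf => by
        rw [E_inv hf ha.1, ha.2 f hf, neg_zero]⟩ }
  have hF : F ≤ P := fun y hy => hy.1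
  have : Nontrivial P := ⟨⟨⟨x, hx⟩, 1, fun h => hgx (by
    rw [show x = 1 from congrArg Subtype.val h, mul_one, one_mul])⟩⟩
  have hlt : F < P := by
    obtain ⟨φ, y, hy⟩ := exists_hom hP
    refine lt_of_le_of_ne hF fun e => hy ?_
    have h2 : (y : Y) ∈ F := e.ge y.2
    have h3 := h2.2 (fun z => if h : z ∈ P then algebraMap (ZMod p) K (φ ⟨z, h⟩).toAdd else 0)
      fun a ha b hb => by
        simp only [dif_pos ha, dif_pos hb, dif_pos (P.mul_mem ha hb), ← map_add, ← toAdd_mul,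
          ← map_mul]
        rfl
    simp only [dif_pos y.2, map_eq_zero, toAdd_eq_zero] at h3
    exact h3
  have hcard : Nat.card F < Nat.card P := by
    refine lt_of_le_of_ne (Subgroup.card_le_of_le hF) fun e => hlt.ne ?_
    exact Subgroup.eq_of_le_of_card_ge hF e.ge
  have h2 : ∀ y ∈ F, g * y = y * g := fun y hy => by
    by_contra h
    exact hc (ih _ hcard F rfl (hP.to_le hF)
      (fun z hz => ⟨hg z hz.1, fun f hf => by rw [h1 f hf z hz.1, hz.2 f hf]⟩) ⟨y, hy, h⟩)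
  obtain ⟨b, hb⟩ : ∃ b, b = x⁻¹ * (g * x * g⁻¹) := ⟨_, rfl⟩
  have hbF : b ∈ F := hb ▸ ⟨P.mul_mem (P.inv_mem hx) (hg x hx), fun f hf => by
    rw [hf _ (P.inv_mem hx) _ (hg x hx), E_inv hf hx, h1 f hf x hx, neg_add_cancel]⟩
  have h3 : g * x = x * (b * g) := by rw [hb]; group
  have h4 : ∀ k : ℕ, g ^ k * x = x * (b * g) ^ k := fun k => by
    induction k with
    | zero => simp
    | succ k ih => rw [pow_succ', mul_assoc, ih, ← mul_assoc, h3, mul_assoc, ← pow_succ']
  have h5 := h4 (orderOf g)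
  rw [(show Commute b g from (h2 b hbF).symm).mul_pow, pow_orderOf_eq_one, one_mul, mul_one] at h5
  rw [one_of hP hq hbF.1 (left_eq_mul.1 h5), one_mul] at h3
  exact hgx h3

end RAff

open RAff in
theorem sAff : S_Aff := by
  rintro Y _ _ ⟨p, P, g, hp, hP, hodd, hq, hg, hx⟩
  have : Fact p.Prime := ⟨hp⟩
  obtain ⟨Q, f, η, hQ, hgQ, hf, hη, he, x, hx, h0⟩ :=
    main (K := AlgebraicClosure (ZMod p)) hq _ P rfl hP hg hx
  have hn : Subgroup.zpowers g ≤ Subgroup.normalizer (Q : Set Y) :=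
    Subgroup.zpowers_le.2 (Subgroup.mem_normalizer_fintype hgQ)
  let φ : Subgroup.zpowers g →* MulAut Q := Q.normalizerMonoidHom.comp (Subgroup.inclusion hn)
  have hφ : ∀ c y, ((φ c y : Q) : Y) = c * y * (c : Y)⁻¹ := fun c y => rfl
  have ht : ∀ c : Subgroup.zpowers g, ∃ t, ∀ y, f (c * y * (c : Y)⁻¹) = t * f y := by
    rintro ⟨c, hc⟩
    obtain ⟨n, rfl⟩ := (mem_powers_iff_mem_zpowers).2 hc
    refine ⟨η ^ n, ?_⟩
    show ∀ y, f (g ^ n * y * (g ^ n)⁻¹) = η ^ n * f y
    clear hc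
    induction n with
    | zero => simp
    | succ n ih =>
      intro y
      rw [pow_succ η, mul_assoc (η ^ n), ← he, ← ih]
      congr 1
      rw [pow_succ]
      group
  choose t ht using ht
  let τ : Subgroup.zpowers g →* AlgebraicClosure (ZMod p) :=
    { toFun := t
      map_one' := mul_right_cancel₀ h0 (by rw [← ht]; simp)
      map_mul' := fun a b => mul_right_cancel₀ h0 (by
        rw [mul_assoc, ← ht b, ← ht a, ← ht]
        congr 1
        push_cast
        group) }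
  let g' : Q ⋊[φ] Subgroup.zpowers g := SemidirectProduct.inr ⟨g, Subgroup.mem_zpowers g⟩
  refine ⟨Q ⋊[φ] Subgroup.zpowers g, inferInstance,
    SemidirectProduct.lift Q.subtype (Subgroup.zpowers g).subtype fun c => by ext y; exact hφ c y,
    AlgebraicClosure (ZMod p), inferInstance, τ.toHomUnits.comp SemidirectProduct.rightHom,
    fun a => f a.left, g', SemidirectProduct.inl ⟨x, hx⟩, orderOf g, ?_, fun a b => ?_, by simp,
    h0, fun h => hη ?_, hodd, ?_⟩
  · refine (injective_iff_map_eq_one _).2 fun a ha => ?_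
    have h1 : (a.left : Y) * a.right = 1 := ha
    have h2 : (a.left : Y) = 1 := by
      refine one_of hQ hq a.left.2 ?_
      obtain ⟨k, hk⟩ := a.right.2
      rw [eq_inv_of_mul_eq_one_left h1, ← hk, inv_pow, ← zpow_natCast, ← zpow_mul, mul_comm,
        zpow_mul, zpow_natCast, pow_orderOf_eq_one, one_zpow, inv_one]
    rw [h2, one_mul] at h1
    exact SemidirectProduct.ext (Subtype.ext h2) (Subtype.ext h1)
  · show f ((a.left : Y) * (φ a.right b.left : Q)) = f a.left + t a.right * f b.left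
    rw [hf _ a.left.2 _ (φ a.right b.left).2, hφ, ht]
  · have h1 : t ⟨g, Subgroup.mem_zpowers g⟩ = 1 := congrArg Units.val h
    have h2 := ht ⟨g, Subgroup.mem_zpowers g⟩ x
    rw [h1] at h2
    exact mul_right_cancel₀ h0 ((he x).symm.trans h2)
  · rw [← map_pow, ← map_pow, show (⟨g, Subgroup.mem_zpowers g⟩ : Subgroup.zpowers g) ^ orderOf g
      = 1 from Subtype.ext (pow_orderOf_eq_one g), map_one, map_one]

end Pool.Agent.MP_e17fb9_al.H47
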