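import Pool.Agent.MP_e17fb9_al.H47.Spec2

/-!
The normal complement theorem of Frobenius.
-/

namespace Pool.Agent.MP_e17fb9_al.H47

open Subgroup
open scoped Pointwise commutatorElement

namespace RFT

/-- Elements of order prime to `p` that normalise a `p`-subgroup centralise it. -/
def Hyp (G : Type) [Group G] (p : ℕ) : Prop :=
  ∀ Q : Subgroup G, IsPGroup p Q → ∀ g : G, (orderOf g).Coprime p → (∀ x ∈ Q, g * x * g⁻¹ ∈ Q) →
    ∀ x ∈ Q, g * x = x * g

variable {G : Type} [Group G] [Finite G] {p : ℕ} [hp : Fact p.Prime]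

omit [Finite G] hp in
theorem mem_smul {g x : G} {P : Sylow p G} : x ∈ g • P ↔ g⁻¹ * x * g ∈ P := by
  change x ∈ ((g • P : Sylow p G) : Subgroup G) ↔ g⁻¹ * x * g ∈ (P : Subgroup G)
  rw [Sylow.coe_subgroup_smul, Subgroup.mem_pointwise_smul_iff_inv_smul_mem]
  simp

theorem pow_coprime (g : G) : ∃ k : ℕ, (orderOf (g ^ p ^ k)).Coprime p := by
  have h0 : orderOf g ≠ 0 := (orderOf_pos g).ne'
  obtain ⟨k, m, hm, e⟩ := Nat.exists_eq_pow_mul_and_not_dvd h0 p hp.out.ne_one
  refine ⟨k, Nat.Coprime.of_dvd_left (a₂ := m) ?_ ((hp.out.coprime_iff_not_dvd).2 hm).symm⟩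
  rw [orderOf_dvd_iff_pow_eq_one, ← pow_mul, ← e, pow_orderOf_eq_one]

/-- The normaliser of a `p`-subgroup is the product of the centraliser and a Sylow subgroup. -/
theorem split (h : Hyp G p) {D : Subgroup G} (hD : IsPGroup p D)
    (S : Sylow p (normalizer (D : Set G))) (n : normalizer (D : Set G)) :
    ∃ c s : normalizer (D : Set G), (c : G) ∈ centralizer (D : Set G) ∧ s ∈ S ∧ n = c * s := by
  let C := (centralizer (D : Set G)).subgroupOf (normalizer (D : Set G))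
  have hQ : IsPGroup p (normalizer (D : Set G) ⧸ C) := by
    intro q
    obtain ⟨g, rfl⟩ := QuotientGroup.mk_surjective q
    obtain ⟨k, hk⟩ := pow_coprime (p := p) (g : G)
    refine ⟨k, ?_⟩
    rw [← QuotientGroup.mk_pow, QuotientGroup.eq_one_iff, mem_subgroupOf, mem_centralizer_iff]
    intro x hx
    exact (h D hD _ hk (fun y hy => (mem_normalizer_iff.1 (g ^ p ^ k).2 y).1 hy) x hx).symm
  have htop := (S.mapSurjective (QuotientGroup.mk'_surjective C)).is_maximal'
    (hQ.to_subgroup ⊤) le_top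
  have hn : QuotientGroup.mk' C n ∈ (S : Subgroup _).map (QuotientGroup.mk' C) := by
    rw [← Sylow.coe_mapSurjective (QuotientGroup.mk'_surjective C), ← htop]
    exact mem_top _
  obtain ⟨s, hs, e⟩ := hn
  refine ⟨n * s⁻¹, s, ?_, hs, by group⟩
  have : QuotientGroup.mk' C (n * s⁻¹) = 1 := by rw [map_mul, map_inv, e, mul_inv_cancel]
  exact mem_subgroupOf.1 ((QuotientGroup.eq_one_iff _).1 this)

/-- Normalisers grow in `p`-groups. -/
theorem grow {D P : Subgroup G} (hP : IsPGroup p P) (h : D < P) :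
    D < normalizer (D : Set G) ⊓ P := by
  have := hP.isNilpotent
  have h1 : D.subgroupOf P < ⊤ := by
    rw [lt_top_iff_ne_top, Ne, subgroupOf_eq_top]
    exact h.not_ge
  have h2 := Group.normalizerCondition_of_isNilpotent _ h1
  rw [← subgroupOf_normalizer_eq h.le] at h2
  obtain ⟨x, hx, hx'⟩ := SetLike.exists_of_lt h2
  refine lt_of_le_of_ne (le_inf le_normalizer h.le) fun e => hx' ?_
  rw [mem_subgroupOf, e]
  exact ⟨mem_subgroupOf.1 hx, x.2⟩

/-- Sylow subgroups that contain `D` are conjugate under the centraliser of `D`. -/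
theorem conj (h : Hyp G p) (D : Subgroup G) :
    ∀ P Q : Sylow p G, D ≤ P → D ≤ Q → ∃ c ∈ centralizer (D : Set G), c • P = Q := by
  induction D using WellFoundedGT.induction with
  | ind D ih =>
  intro P Q hP hQ
  rcases hP.eq_or_lt with e | hP'
  · exact ⟨1, one_mem _, by
      rw [one_smul]
      exact Sylow.ext (P.is_maximal' Q.2 (e ▸ hQ)).symm⟩
  rcases hQ.eq_or_lt with e | hQ'
  · exact ⟨1, one_mem _, by
      rw [one_smul]
      exact Sylow.ext (Q.is_maximal' P.2 (e ▸ hP))⟩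
  have hD : IsPGroup p D := P.2.to_le hP
  have g1 := grow P.2 hP'
  have g2 := grow Q.2 hQ'
  obtain ⟨S₁, h1⟩ := (P.2.comap_subtype (K := normalizer (D : Set G))).exists_le_sylow
  obtain ⟨S₂, h2⟩ := (Q.2.comap_subtype (K := normalizer (D : Set G))).exists_le_sylow
  obtain ⟨R, hR⟩ := S₁.exists_comap_subtype_eq
  obtain ⟨n, hn⟩ := MulAction.exists_smul_eq (normalizer (D : Set G)) S₁ S₂
  obtain ⟨c, s, hc, hs, rfl⟩ := split h hD S₁ n
  have hs' : s • S₁ = S₁ := Sylow.smul_eq_iff_mem_normalizer.2 (le_normalizer hs)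
  rw [mul_smul, hs'] at hn
  obtain ⟨x, hx, ex⟩ := ih _ g1 P R inf_le_right fun y hy => by
    have : (⟨y, hy.1⟩ : normalizer (D : Set G)) ∈ (S₁ : Subgroup _) := h1 hy.2
    rw [← hR] at this
    exact this
  obtain ⟨y, hy, ey⟩ := ih _ g2 ((c : G) • R) Q (fun y hy => by
    have h3 : (⟨y, hy.1⟩ : normalizer (D : Set G)) ∈ S₂ := h2 hy.2
    rw [← hn, mem_smul] at h3
    have h4 : c⁻¹ * (⟨y, hy.1⟩ : normalizer (D : Set G)) * c ∈ (S₁ : Subgroup _) := h3
    rw [← hR] at h4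
    exact mem_smul.2 h4) inf_le_right
  refine ⟨y * c * x, mul_mem (mul_mem (centralizer_le g2.le hy) hc) (centralizer_le g1.le hx), ?_⟩
  rw [mul_smul, mul_smul, ex, ey]

/-- A Sylow subgroup controls its own fusion. -/
theorem fusion (h : Hyp G p) (P : Sylow p G) {x g : G} (hx : x ∈ (P : Subgroup G))
    (hg : g * x * g⁻¹ ∈ (P : Subgroup G)) : ∃ u ∈ (P : Subgroup G), g * x * g⁻¹ = u * x * u⁻¹ := by
  obtain ⟨c, hc, e⟩ := conj h (zpowers (g * x * g⁻¹)) (g • P) P
    (zpowers_le.2 (mem_smul.2 (by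
      rw [show g⁻¹ * (g * x * g⁻¹) * g = x by group]
      exact hx))) (zpowers_le.2 hg)
  rw [← mul_smul, Sylow.smul_eq_iff_mem_normalizer] at e
  obtain ⟨c', s, hc', hs, e'⟩ := split h P.2 (P.subtype le_normalizer) ⟨c * g, e⟩
  have hs' : (s : G) ∈ (P : Subgroup G) := hs
  have e1 : c * g = c' * s := congrArg Subtype.val e'
  have e2 := mem_centralizer_iff.1 hc _ (mem_zpowers _)
  have e3 := mem_centralizer_iff.1 hc' _ (mul_mem (mul_mem hs' hx) (inv_mem hs'))
  refine ⟨s, hs', ?_⟩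
  calc g * x * g⁻¹ = (c * (g * x * g⁻¹)) * c⁻¹ := by rw [← e2]; group
    _ = (c * g) * x * (c * g)⁻¹ := by group
    _ = (c' * (s * x * (s : G)⁻¹)) * (c' : G)⁻¹ := by rw [e1]; group
    _ = s * x * (s : G)⁻¹ := by rw [← e3]; group

theorem focal_ne_top (h : Hyp G p) (P : Sylow p G) (hP : (P : Subgroup G) ≠ ⊥) :
    (P : Subgroup G).focalSubgroupOf ≠ ⊤ := by
  have := P.2.isNilpotent
  have := (nontrivial_iff_ne_bot _).2 hP
  refine ne_top_of_le_ne_top (Group.IsSolvable.commutator_lt_top_of_nontrivial P).ne ?_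
  rw [focalSubgroupOf_eq_closure, closure_le]
  rintro z ⟨x, hx, u, e⟩
  have h1 : u * x⁻¹ * u⁻¹ ∈ (P : Subgroup G) := by
    have : u * x⁻¹ * u⁻¹ = x⁻¹ * z := by rw [e, commutatorElement_def]; group
    rw [this]
    exact mul_mem (inv_mem hx) z.2
  obtain ⟨s, hs, e'⟩ := fusion h P (inv_mem hx) h1
  have : z = ⁅(⟨x, hx⟩ : (P : Subgroup G)), ⟨s, hs⟩⁆ := by
    refine Subtype.ext ?_
    rw [e, commutatorElement_def, commutatorElement_def]
    change x * u * x⁻¹ * u⁻¹ = x * s * x⁻¹ * s⁻¹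
    calc x * u * x⁻¹ * u⁻¹ = x * (u * x⁻¹ * u⁻¹) := by group
      _ = x * s * x⁻¹ * s⁻¹ := by rw [e']; group
  rw [this]
  exact commutator_mem_commutator (mem_top _) (mem_top _)

omit [Finite G] hp in
theorem Hyp.sub (h : Hyp G p) (K : Subgroup G) : Hyp K p := by
  intro Q hQ g hg hn x hx
  refine Subtype.ext (h (Q.map K.subtype) (hQ.map _) g (by rwa [Subgroup.orderOf_coe]) ?_ x
    ⟨x, hx, rfl⟩)
  rintro _ ⟨y, hy, rfl⟩
  exact ⟨_, hn y hy, rfl⟩

omit [Finite G] hp in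
theorem mem_of_coprime {M : Subgroup G} [M.Normal] {k : ℕ} (hk : M.index = p ^ k) {x : G}
    (hx : (orderOf x).Coprime p) : x ∈ M := by
  have h1 : orderOf (QuotientGroup.mk' M x) ∣ orderOf x := orderOf_map_dvd _ x
  have h2 : orderOf (QuotientGroup.mk' M x) ∣ p ^ k := hk ▸ orderOf_dvd_natCard _
  have h3 := Nat.eq_one_of_dvd_coprimes (hx.pow_right k) h1 h2
  exact (QuotientGroup.eq_one_iff x).1 (orderOf_eq_one_iff.1 h3)

theorem main (p : ℕ) [hp : Fact p.Prime] (n : ℕ) : ∀ (G : Type) [Group G] [Finite G],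
    Nat.card G = n → Hyp G p →
    ∃ N : Subgroup G, N.Normal ∧ (Nat.card N).Coprime p ∧ ∃ k : ℕ, N.index = p ^ k := by
  induction n using Nat.strong_induction_on with
  | _ n ih =>
  intro G _ _ hn h
  obtain ⟨P⟩ : Nonempty (Sylow p G) := inferInstance
  by_cases hP : (P : Subgroup G) = ⊥
  · refine ⟨⊤, inferInstance, ?_, 0, by simp⟩
    rw [card_top]
    exact ((hp.out.coprime_iff_not_dvd).2 fun hd => P.ne_bot_of_dvd_card hd hP).symm
  let K : Subgroup G := (P : Subgroup G).transferFocal.ker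
  obtain ⟨j, hj⟩ := IsPGroup.iff_card.1 (P.2.to_quotient (P : Subgroup G).focalSubgroupOf)
  have hK : K.index = Nat.card (P ⧸ (P : Subgroup G).focalSubgroupOf) :=
    Nat.card_congr (transferFocal.quotientKerMulEquivQuotientFocalSubroupOf P).toEquiv
  have hK1 : K.index ≠ 1 := by
    rw [hK]
    exact fun e => focal_ne_top h P hP (index_eq_one.1 e)
  have hlt : Nat.card K < n := by
    have h1 := K.card_mul_index
    have h2 : K.index ≠ 0 := index_ne_zero_of_finite
    have h3 : 0 < Nat.card K := Nat.card_pos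
    rw [← hn, ← h1]
    exact lt_mul_of_one_lt_right h3 (by omega)
  obtain ⟨M, hM, hc, k, hk⟩ := ih _ hlt K rfl (h.sub K)
  refine ⟨M.map K.subtype, ⟨?_⟩, ?_, k + j, ?_⟩
  · rintro _ ⟨x, hx, rfl⟩ g
    have h1 : g * x * g⁻¹ ∈ K := (inferInstance : K.Normal).conj_mem _ x.2 g
    refine ⟨⟨_, h1⟩, mem_of_coprime hk (Nat.Coprime.of_dvd_left (a₂ := Nat.card M) ?_ hc), rfl⟩
    rw [orderOf_dvd_iff_pow_eq_one]
    have h2 : x ^ Nat.card M = 1 := congrArg Subtype.val (pow_card_eq_one' (x := (⟨x, hx⟩ : M)))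
    have h3 : (x : G) ^ Nat.card M = 1 := congrArg Subtype.val h2
    refine Subtype.ext ?_
    change (g * x * g⁻¹) ^ Nat.card M = 1
    rw [conj_pow, h3, mul_one, mul_inv_cancel]
  · rwa [card_map_of_injective K.subtype_injective]
  · rw [index_map_subtype, hk, hK, hj, pow_add]

end RFT

theorem sFT : S_FT := fun G _ _ p hp h =>
  haveI : Fact p.Prime := ⟨hp⟩
  RFT.main p _ G rfl h

end Pool.Agent.MP_e17fb9_al.H47
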