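import Pool.Agent.MP_e17fb9_al.H47.Spec2

/-!
A finite group without a nilpotent normal two-complement has an element of odd order acting
nontrivially on a subgroup of coprime prime power order.
-/

namespace Pool.Agent.MP_e17fb9_al.H47

namespace RFrob

/-- A finite group with a normal `p`-complement for every prime `p` is nilpotent. -/
theorem nilpotent_of_complements (G : Type) [Group G] [Finite G]
    (h : ∀ p : ℕ, p.Prime →
      ∃ N : Subgroup G, N.Normal ∧ (Nat.card N).Coprime p ∧ ∃ k : ℕ, N.index = p ^ k) :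
    Group.IsNilpotent G := by
  choose N hN hc k hk using fun p : (Nat.card G).primeFactors =>
    h p (Nat.prime_of_mem_primeFactors p.2)
  have : ∀ p, (N p).Normal := hN
  have : ∀ p, Group.IsNilpotent (G ⧸ N p) := fun p => by
    have : Fact (p : ℕ).Prime := ⟨Nat.prime_of_mem_primeFactors p.2⟩
    exact (IsPGroup.of_card (hk p)).isNilpotent
  refine Subgroup.isNilpotent_of_ker_le_center
    (MonoidHom.pi fun p => QuotientGroup.mk' (N p)) fun x hx => ?_
  have hx1 : ∀ p, x ∈ N p := fun p => by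
    have := congrFun (MonoidHom.mem_ker.1 hx) p
    exact (QuotientGroup.eq_one_iff x).1 this
  have hx2 : orderOf x = 1 := by
    by_contra hne
    obtain ⟨q, hq, hd⟩ := Nat.exists_prime_and_dvd hne
    have hm : q ∈ (Nat.card G).primeFactors :=
      Nat.mem_primeFactors.2 ⟨hq, hd.trans (orderOf_dvd_natCard x), Nat.card_pos.ne'⟩
    have h1 : q ∣ Nat.card (N ⟨q, hm⟩) := hd.trans ((N ⟨q, hm⟩).orderOf_dvd_natCard (hx1 _))
    exact hq.one_lt.ne' (Nat.Coprime.eq_one_of_dvd (hc ⟨q, hm⟩).symm h1)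
  rw [orderOf_eq_one_iff.1 hx2]
  exact one_mem _

end RFrob

theorem sFrob (h : S_FT) : S_Frob := by
  intro Y _ _ hC
  by_contra hA
  have key : ∀ (p : ℕ) (P : Subgroup Y) (g : Y), p.Prime → IsPGroup p P → Odd (orderOf g) →
      (orderOf g).Coprime p → (∀ x ∈ P, g * x * g⁻¹ ∈ P) → ∀ x ∈ P, g * x = x * g := by
    intro p P g hp hP ho hc hn x hx
    by_contra hne
    exact hA ⟨p, P, g, hp, hP, ho, hc, hn, x, hx, hne⟩
  obtain ⟨O, hO, hc, k, hk⟩ := h Y 2 Nat.prime_two fun Q hQ g hg hn =>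
    key 2 Q g Nat.prime_two hQ (Nat.coprime_two_right.1 hg) hg hn
  have hodd : Odd (Nat.card O) := Nat.coprime_two_right.1 hc
  refine hC ⟨O, hO, RFrob.nilpotent_of_complements O fun p hp => h O p hp ?_, hodd, k, hk⟩
  intro Q hQ g hg hn x hx
  apply Subtype.ext
  refine key p (Q.map O.subtype) g hp (hQ.map _) ?_ ?_ ?_ x ⟨x, hx, rfl⟩
  · rw [Subgroup.orderOf_coe]
    exact hodd.of_dvd_nat (orderOf_dvd_natCard g)
  · rwa [Subgroup.orderOf_coe]
  · rintro _ ⟨y, hy, rfl⟩
    exact ⟨g * y * g⁻¹, hn y hy, rfl⟩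

end Pool.Agent.MP_e17fb9_al.H47
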