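import Pool.Agent.MP_e17fb9_al.H47.Free
import Pool.Agent.MP_e17fb9_al.H47.LF
import Pool.Agent.MP_e17fb9_al.H47.RFT
import Pool.Agent.MP_e17fb9_al.H47.RFrob
import Pool.Agent.MP_e17fb9_al.H47.RAff

/-!
Transfer from sequences to words and the dichotomy.
-/

open Function Subgroup

noncomputable section

namespace Pool.Agent.MP_e17fb9_al.H47

section
variable {Z : Type} [CommGroup Z]

/-- difference operators -/
def dd (c : ℕ) (x : ℕ → Z) : ℕ → Z
  | 0 => x 0
  | k + 1 => x (k + 1) * (x k ^ c)⁻¹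

theorem dd_sq (x : ℕ → Z) : dd 1 (sq 1 x) = dd 2 x := funext fun k => by
  rcases k with _ | k
  · simp [dd, sq_apply, st]
  · simp [dd, sq_apply, st, pow_two, mul_comm, mul_left_comm, mul_assoc]

theorem dd_comm : Function.Commute (dd 1 : (ℕ → Z) → ℕ → Z) (dd 2) := fun x => funext fun k => by
  rcases k with _ | _ | k <;> simp [dd, pow_two, mul_comm, mul_left_comm, mul_assoc]

theorem dd_pow (m : ℕ) (x : ℕ → Z) : (dd 1)^[m] ((sq (1 : Z) ^ m) x) = (dd 2)^[m] x := by
  induction m with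
  | zero => rfl
  | succ m ih => rw [iterate_succ_apply, pow_succ', Equiv.Perm.mul_apply, dd_sq,
      (dd_comm.iterate_left m).eq, ih, iterate_succ_apply']

theorem dd_tail {c n : ℕ} {x : ℕ → Z} {b : Z} (h : ∀ k, n ≤ k → x k = b) :
    ∀ k, n + 1 ≤ k → dd c x k = b * (b ^ c)⁻¹
  | k + 1, hk => by rw [dd, h _ (by omega), h _ (by omega)]

theorem inf_comm {a : Z} (ha : a ≠ 1) (m : ℕ) : sq (1 : Z) ^ (m + 1) ≠ 1 := fun e => by
  have h2 : ∀ m, ∃ b ≠ 1, ∀ k, m ≤ k → (dd 2)^[m] (fun _ => a) k = b := fun m => by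
    induction m with
    | zero => exact ⟨a, ha, fun _ _ => rfl⟩
    | succ m ih =>
      obtain ⟨b, h1, h2⟩ := ih
      exact ⟨b * (b ^ 2)⁻¹, by simpa [pow_two] using h1, by
        simpa only [iterate_succ_apply'] using dd_tail h2⟩
  have h1 : ∀ m k, m + 1 ≤ k → (dd 1)^[m + 1] (fun _ => a) k = 1 := fun m => by
    induction m with
    | zero => simpa using dd_tail (c := 1) (n := 0) (x := fun _ => a) fun _ _ => rfl
    | succ m ih => simpa only [iterate_succ_apply', one_pow, inv_one, mul_one] using dd_tail (c := 1) ih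
  obtain ⟨b, h3, h4⟩ := h2 (m + 1)
  rw [← dd_pow, e] at h4
  exact h3 ((h4 _ le_rfl).symm.trans (h1 m _ le_rfl))

end

theorem sInf : S_Inf := fun Y _ _ _ h => by
  obtain ⟨a, ha⟩ := exists_ne (1 : Y)
  obtain ⟨m, hm, e⟩ := isOfFinOrder_iff_pow_eq_one.1 h
  obtain ⟨m, rfl⟩ := Nat.exists_eq_succ_of_ne_zero hm.ne'
  let _ : CommGroup (zpowers a) := IsCyclic.commGroup
  refine inf_comm (a := (⟨a, mem_zpowers a⟩ : zpowers a)) (fun k => ha (congrArg Subtype.val k)) m
    (Equiv.ext fun x => funext fun k => Subtype.ext ?_)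
  have := congrFun (ev_map (zpowers a).subtype (.of 1 ^ (m + 1)) x) k
  simp only [ev, map_pow, FreeGroup.map.of, map_one, FreeGroup.lift_apply_of] at this
  rw [e] at this
  exact this.symm

variable {Y : Type} [Group Y]

/-- prefixes -/
def pre (x : ℕ → Y) (n : ℕ) : List Y := List.ofFn fun k : Fin n => x k

theorem st_shift (i : Y) (x : ℕ → Y) (k : ℕ) :
    st i x (k + 1) = st ((x 0)⁻¹ * i) (fun k => x (k + 1)) k := by
  induction k with
  | zero => rfl
  | succ k ih => rw [st, ih, st]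

theorem act_pre (n : ℕ) : ∀ (i : Y) (x : ℕ → Y), act i (pre x n) = pre (sq i x) n := by
  induction n with
  | zero => exact fun _ _ => rfl
  | succ n ih =>
    intro i x
    have := ih ((x 0)⁻¹ * i) fun k => x (k + 1)
    simp only [pre, List.ofFn_succ, act, Fin.val_succ, Fin.val_zero, sq_apply, st_shift] at this ⊢
    rw [this]
    rfl

theorem lift_pre (n : ℕ) (w : FreeGroup Y) :
    ∀ x : ℕ → Y, FreeGroup.lift gen w (pre x n) = pre (ev Y w x) n := by
  induction w using FreeGroup.induction_on with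
  | C1 => simp
  | of i => simpa [ev, gen] using act_pre n i
  | inv_of i _ =>
    intro x
    simp only [ev, map_inv, FreeGroup.lift_apply_of]
    rw [Equiv.Perm.inv_eq_iff_eq]
    simpa [gen] using (act_pre n i ((sq i)⁻¹ x)).symm
  | mul a b ha hb => simp [ha, hb]

theorem lift_eq_one (w : FreeGroup Y) : FreeGroup.lift gen w = 1 ↔ ev Y w = 1 := by
  refine ⟨fun h => Equiv.ext fun x => funext fun k => ?_, fun h => Equiv.ext fun l => ?_⟩
  · have := lift_pre (k + 1) w x
    rw [h] at this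
    exact (congrFun (List.ofFn_injective this) (Fin.last k)).symm
  · have e : pre (fun k => l.getD k 1) l.length = l := by
      simp [pre]
    rw [← e, lift_pre, h]
    rfl

/-- evaluation of words in the automaton group -/
def al (Y : Type) [Group Y] : FreeGroup Y →* GY Y :=
  (FreeGroup.lift gen).codRestrict _ fun w => by
    rw [GY, ← FreeGroup.range_lift_eq_closure]
    exact ⟨w, rfl⟩

theorem al_surj : Surjective (al Y) := fun g => by
  have := g.2
  simp only [GY, ← FreeGroup.range_lift_eq_closure] at this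
  obtain ⟨w, e⟩ := this
  exact ⟨w, Subtype.ext e⟩

theorem al_eq_one (w : FreeGroup Y) : al Y w = 1 ↔ ev Y w = 1 :=
  Subtype.ext_iff.trans (lift_eq_one w)

theorem fin_of_zpowers {G : Type} [Group G] {N : Subgroup G} (h : LF N) {g : G} (hg : g ∈ N) :
    IsOfFinOrder g :=
  have := h (zpowers g) (zpowers_le.2 hg) ⟨{g}, by simp [zpowers_eq_closure]⟩
  finite_zpowers.1 (Set.toFinite _)

theorem main (Y : Type) [Group Y] [Finite Y] [Nontrivial Y] :
    List.TFAE [∃ O : Subgroup Y, O.Normal ∧ Group.IsNilpotent O ∧ Odd (Nat.card O) ∧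
        ∃ k : ℕ, O.index = 2 ^ k,
      ∃ φ : GY Y →* Multiplicative ℤ,
        (∀ (i : Y) (g : GY Y), g.val = gen i → φ g = Multiplicative.ofAdd 1) ∧
        ∀ H : Subgroup (GY Y), H ≤ φ.ker → H.FG → Finite H,
      ∀ f : FreeGroup (Fin 2) →* GY Y, ¬Function.Injective f] := by
  tfae_have 1 → 2 := fun h => by
    obtain ⟨N, h1, h2, h3⟩ := sLF Y h
    let ε : FreeGroup Y →* Multiplicative ℤ := FreeGroup.lift fun _ => Multiplicative.ofAdd 1
    have n1 : sq 1 ∈ normalizer (N : Set (Equiv.Perm (ℕ → Y))) := fun f =>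
      ⟨fun a => (h2 f a).1, fun a => by simpa [mul_assoc] using (h2 _ a).2⟩
    have A : ∀ w, (sq 1 ^ (ε w).toAdd)⁻¹ * ev Y w ∈ N := fun w => by
      induction w using FreeGroup.induction_on with
      | C1 => simp
      | of i => simpa [ε, ev] using h1 1 i
      | inv_of i _ => simpa [ε, ev, mul_assoc] using (h2 _ (h1 i 1)).1
      | mul a b ha hb =>
        simpa [zpow_add, mul_assoc] using
          mul_mem ((inv_mem (zpow_mem n1 (ε b).toAdd) _).1 ha) hb
    have k1 : (al Y).ker ≤ ε.ker := fun w hw => by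
      have := A w
      rw [(al_eq_one w).1 hw, mul_one, inv_mem_iff] at this
      obtain ⟨n, hn, e⟩ := isOfFinOrder_iff_zpow_eq_one.1 (fin_of_zpowers h3 this)
      by_contra a
      exact sInf Y (isOfFinOrder_iff_zpow_eq_one.2 ⟨(ε w).toAdd * n, mul_ne_zero a hn,
        (zpow_mul _ _ _).trans e⟩)
    have k2 : (al Y).ker ≤ (ev Y).ker := fun w hw => (al_eq_one w).1 hw
    let φ := (al Y).liftOfRightInverse _ (rightInverse_surjInv al_surj) ⟨ε, k1⟩
    let θ := (al Y).liftOfRightInverse _ (rightInverse_surjInv al_surj) ⟨ev Y, k2⟩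
    have e1 : ∀ w, φ (al Y w) = ε w := fun w => MonoidHom.liftOfRightInverse_comp_apply ..
    have e2 : ∀ w, θ (al Y w) = ev Y w := fun w => MonoidHom.liftOfRightInverse_comp_apply ..
    refine ⟨φ, fun i g e => ?_, fun H hH fg => LF.of_map h3 fg (f := θ)
      ((injective_iff_map_eq_one _).2 fun g e => ?_) ?_⟩
    · rw [show g = al Y (.of i) from Subtype.ext (by simp [e, al]), e1]
      simp [ε]
    · obtain ⟨w, rfl⟩ := al_surj g
      exact (al_eq_one w).2 (e2 w ▸ e)
    · rintro _ ⟨g, hg, rfl⟩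
      obtain ⟨w, rfl⟩ := al_surj g
      have := A w
      rw [← e1, show φ (al Y w) = 1 from hH hg] at this
      simpa [e2] using this
  tfae_have 2 → 3 := fun ⟨φ, _, h⟩ f hf => by
    have := fin_of_zpowers h (g := f (.of 0 * .of 1 * (.of 0)⁻¹ * (.of 1)⁻¹)) (by
      simp [MonoidHom.mem_ker])
    have := (isOfFinOrder_iff_eq_one _).1 (hf.isOfFinOrder_iff.1 this)
    exact absurd this (by decide)
  tfae_have 3 → 1 := fun h => by
    by_contra hc
    obtain ⟨f, hf⟩ := sFree Y (sAff Y (sFrob sFT Y hc))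
    exact h ((al Y).comp f) ((injective_iff_map_eq_one _).2 fun w e =>
      (injective_iff_map_eq_one _).1 hf w ((al_eq_one _).1 e))
  tfae_finish

end Pool.Agent.MP_e17fb9_al.H47
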