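import Mathlib

/-!
Ping-pong for elementary matrices over a polynomial ring.
-/

open Polynomial Function
open scoped Pointwise

noncomputable section

namespace Pool.Agent.MP_e17fb9_al.H47

variable {K : Type} [Field K]

/-- the two nilpotent operators on pairs of polynomials -/
def nil (K : Type) [Field K] : Bool → Module.End K (K[X] × K[X])
  | false => (LinearMap.inl K _ _).comp ((LinearMap.mulLeft K X).comp (LinearMap.snd K _ _))
  | true => (LinearMap.inr K _ _).comp ((LinearMap.mulLeft K X).comp (LinearMap.fst K _ _))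

theorem nil_sq (b : Bool) : nil K b * nil K b = 0 := by
  cases b <;> refine LinearMap.ext fun v => ?_ <;> simp [nil]

/-- elementary matrices -/
def el (b : Bool) (c : K) : (Module.End K (K[X] × K[X]))ˣ where
  val := 1 + c • nil K b
  inv := 1 - c • nil K b
  val_inv := by simp [mul_sub, add_mul, nil_sq]
  inv_val := by simp [sub_mul, mul_add, nil_sq]

theorem el_add (b : Bool) (c d : K) : el b (c + d) = el b c * el b d := by
  ext1
  simp [el, mul_add, add_mul, nil_sq, add_smul, add_assoc, add_comm]

theorem el_zero (b : Bool) : el b (0 : K) = 1 := by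
  ext1
  simp [el]

theorem el_neg (b : Bool) (c : K) : (el b c)⁻¹ = el b (-c) :=
  inv_eq_of_mul_eq_one_right (by rw [← el_add, add_neg_cancel, el_zero])

/-- nonzero vectors -/
def NZ (K : Type) [Field K] : Type := {v : K[X] × K[X] // v ≠ 0}

instance : MulAction (Module.End K (K[X] × K[X]))ˣ (NZ K) where
  smul u v := ⟨u.val v.1, fun h => v.2 (by
    have := congrArg u.inv h
    rwa [← Module.End.mul_apply, u.inv_val, map_zero] at this)⟩
  one_smul _ := rfl
  mul_smul _ _ _ := rfl

/-- first coordinate dominates -/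
def Big (v : NZ K) : Prop := v.1.2.degree < v.1.1.degree

theorem deg_lt {f g : K[X]} {c : K} (hc : c ≠ 0) (hf : f ≠ 0) (h : g.degree ≤ f.degree) :
    f.degree < (g + c • (X * f)).degree := by
  have e : f.degree < (c • (X * f)).degree := by
    rw [smul_eq_C_mul, degree_C_mul hc, mul_comm]
    exact degree_lt_degree_mul_X hf
  rwa [degree_add_eq_right_of_degree_lt (h.trans_lt e)]

theorem big_true {v : NZ K} {c : K} (hc : c ≠ 0) (h : Big v) : ¬Big (el true c • v) := by
  have hf : v.1.1 ≠ 0 := fun e => by simp [Big, e] at h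
  have e : (el true c • v).1 = (v.1.1, v.1.2 + c • (X * v.1.1)) := by
    change (1 + c • nil K true) v.1 = _
    ext1 <;> simp [nil]
  rw [Big, e]
  exact (deg_lt hc hf (le_of_lt h)).not_gt

theorem big_false {v : NZ K} {c : K} (hc : c ≠ 0) (h : ¬Big v) : Big (el false c • v) := by
  have h' : v.1.1.degree ≤ v.1.2.degree := not_lt.1 h
  have hf : v.1.2 ≠ 0 := fun e => v.2 (Prod.ext (by simpa [e] using h') e)
  have e : (el false c • v).1 = (v.1.1 + c • (X * v.1.2), v.1.2) := by
    change (1 + c • nil K false) v.1 = _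
    ext1 <;> simp [nil]
  rw [Big, e]
  exact deg_lt hc hf h'

theorem el_el (b : Bool) (c d : K) (v : NZ K) : el b c • el b d • v = el b (c + d) • v := by
  rw [el_add, mul_smul]

theorem ping (l : Fin 2 → K) (h0 : ∀ i, l i ≠ 0) (h1 : Injective l) :
    Injective (FreeGroup.lift fun i => el true (l i) * el false (-l i)) := by
  have xb : ∀ i (v : NZ K), Big (el true (-l i) • v) → ¬Big v := fun i v h => by
    simpa [el_el, el_zero] using big_true (h0 i) h
  have yb : ∀ i (v : NZ K), ¬Big (el false (-l i) • v) → Big v := fun i v h => by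
    simpa [el_el, el_zero] using big_false (h0 i) h
  obtain ⟨v0, hv0⟩ : ∃ v : NZ K, Big v := ⟨⟨(1, 0), by simp⟩, by simp [Big]⟩
  refine FreeGroup.injective_lift_of_ping_pong _ (α := NZ K) (fun i => {v | Big (el true (-l i) • v)})
    (fun i => {v | ¬Big (el false (-l i) • v)}) (fun i => ⟨el true (l i) • v0, ?_⟩)
    (fun i j hij => Set.disjoint_left.2 fun v a b => ?_)
    (fun i j hij => Set.disjoint_left.2 fun v a b => ?_)
    (fun i j => Set.disjoint_left.2 fun v a b => xb i v a (yb j v b)) (fun i => ?_) (fun i => ?_)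
  · simpa [el_el, el_zero] using hv0
  · refine big_true (sub_ne_zero.2 (h1.ne hij)) a ?_
    rwa [el_el, show l i - l j + -l i = -l j by ring]
  · refine b ?_
    have := big_false (sub_ne_zero.2 (h1.ne hij)) a
    rwa [el_el, show l i - l j + -l i = -l j by ring] at this
  · rintro _ ⟨v, hv, rfl⟩
    simpa [mul_smul, el_el, el_zero] using hv
  · rintro _ ⟨v, hv, rfl⟩
    simpa [mul_smul, el_neg, el_el, el_zero] using hv

end Pool.Agent.MP_e17fb9_al.H47
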