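import Pool.Agent.MP_e17fb9_al.H47.Ping

/-!
Two partial sum operators generate a free algebra.
-/

open Polynomial Function Finset

noncomputable section

namespace Pool.Agent.MP_e17fb9_al.H47

variable {K : Type} [Field K]

/-- weighted partial sums -/
def ps (t : ℕ → Kˣ) (v : ℕ → K) (k : ℕ) : K := ∑ j ∈ range k, (((t j)⁻¹ : Kˣ) : K) ^ 2 * v j

/-- the operator `T S T⁻²` -/
def V (t : ℕ → Kˣ) : Module.End K (ℕ → K) where
  toFun v k := t k * ps t v k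
  map_add' v w := funext fun k => by simp [ps, mul_add, sum_add_distrib]
  map_smul' c v := funext fun k => by simp [ps, mul_sum, mul_left_comm]

theorem V_apply (t : ℕ → Kˣ) (v : ℕ → K) (k : ℕ) : V t v k = t k * ps t v k := rfl

theorem ps_congr {t t' : ℕ → Kˣ} {v v' : ℕ → K} {k : ℕ} (h : ∀ j < k, t j = t' j ∧ v j = v' j) :
    ps t v k = ps t' v' k :=
  sum_congr rfl fun j hj => by rw [(h j (mem_range.1 hj)).1, (h j (mem_range.1 hj)).2]

/-- families of operators -/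
abbrev Fam (K : Type) [Field K] := (ℕ → Kˣ) → Module.End K (ℕ → K)

/-- pairs of a family and a matrix -/
abbrev Al (K : Type) [Field K] := Fam K × Module.End K (K[X] × K[X])

/-- causal families -/
def Caus (M : Fam K) : Prop :=
  ∀ t t' v v' k, (∀ j ≤ k, t j = t' j ∧ v j = v' j) → M t v k = M t' v' k

variable (r : ℕ → Kˣ)

/-- the weights -/
def wt : Bool → ℕ → Kˣ
  | false => 1
  | true => r

/-- the generators -/
def gn (b : Bool) : Al K := (fun t => V (t * wt r b), nil K b)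

/-- pairs with `n` left quotients -/
def F : ℕ → Set (Al K)
  | 0 => {a | Caus a.1}
  | n + 1 => {a | ∃ c : K, ∃ a0 ∈ F n, ∃ a1 ∈ F n, a = c • 1 + gn r false * a0 + gn r true * a1}

variable {r}

theorem ps_low {M : Fam K} (h : Caus M) (s : ℕ → Kˣ) {t t' : ℕ → Kˣ} {v v' : ℕ → K} {k : ℕ}
    (e : ∀ j < k, t j = t' j ∧ v j = v' j) : ps (t * s) (M t v) k = ps (t' * s) (M t' v') k :=
  ps_congr fun j hj => ⟨by simp [(e j hj).1], h _ _ _ _ _ fun i hi => e i (hi.trans_lt hj)⟩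

theorem dec_apply (c : K) (a0 a1 : Al K) (t : ℕ → Kˣ) (v : ℕ → K) (k : ℕ) :
    (c • 1 + gn r false * a0 + gn r true * a1 : Al K).1 t v k =
      c * v k + t k * (ps (t * 1) (a0.1 t v) k + r k * ps (t * r) (a1.1 t v) k) := by
  simp [gn, wt, V_apply, mul_add, mul_assoc, add_assoc]

theorem F_mono : ∀ n, ∀ a ∈ F r (n + 1), a ∈ F r n
  | 0, _, ⟨c, a0, h0, a1, h1, e⟩ => fun t t' v v' k h => by
    rw [e, dec_apply, dec_apply, (h k le_rfl).1, (h k le_rfl).2,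
      ps_low h0 1 fun j hj => h j hj.le, ps_low h1 r fun j hj => h j hj.le]
  | n + 1, _, ⟨c, a0, h0, a1, h1, e⟩ => ⟨c, a0, F_mono n _ h0, a1, F_mono n _ h1, e⟩

theorem F_one : ∀ n, ∀ a ∈ F r (n + 1), a ∈ F r 1
  | 0, _, h => h
  | n + 1, a, h => F_one n a (F_mono _ a h)

theorem F_const : ∀ (n : ℕ) (c : K), (c • 1 : Al K) ∈ F r n
  | 0, c => fun t t' v v' k h => by simp [(h k le_rfl).2]
  | n + 1, c => ⟨c, _, F_const n 0, _, F_const n 0, by simp⟩

theorem F_add : ∀ n, ∀ a ∈ F r n, ∀ b ∈ F r n, a + b ∈ F r n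
  | 0, a, ha, b, hb => fun t t' v v' k h => by
    simp only [Prod.fst_add, Pi.add_apply, LinearMap.add_apply, ha t t' v v' k h, hb t t' v v' k h]
  | n + 1, _, ⟨c, a0, h0, a1, h1, e⟩, _, ⟨d, b0, k0, b1, k1, e'⟩ =>
    ⟨c + d, _, F_add n _ h0 _ k0, _, F_add n _ h1 _ k1, by
      rw [e, e', add_smul, mul_add, mul_add]; abel⟩

theorem F_mul : ∀ n, ∀ a ∈ F r n, ∀ b ∈ F r n, a * b ∈ F r n
  | 0, a, ha, b, hb => fun t t' v v' k h => ha t t' _ _ k fun j hj =>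
    ⟨(h j hj).1, hb t t' v v' j fun i hi => h i (hi.trans hj)⟩
  | n + 1, _, ⟨c, a0, h0, a1, h1, e⟩, b, hb => by
    have hb' := F_mono n b hb
    obtain ⟨d, b0, k0, b1, k1, e'⟩ := hb
    refine ⟨c * d, _, F_add n _ (F_mul n _ (F_const n c) _ k0) _ (F_mul n _ h0 _ hb'), _,
      F_add n _ (F_mul n _ (F_const n c) _ k1) _ (F_mul n _ h1 _ hb'), ?_⟩
    have : c • b = (c * d) • 1 + gn r false * (c • b0) + gn r true * (c • b1) := by
      rw [e', smul_add, smul_add, smul_smul, mul_smul_comm, mul_smul_comm]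
    rw [e, add_mul, add_mul, smul_mul_assoc, one_mul, this]
    simp only [smul_mul_assoc, one_mul, mul_add, mul_assoc]
    abel

theorem F_step {n : ℕ} (b : Bool) (c : K) {a : Al K} (h : a ∈ F r n) :
    c • 1 + gn r b * a ∈ F r (n + 1) := by
  cases b
  · exact ⟨c, a, h, _, F_const n 0, by simp⟩
  · exact ⟨c, _, F_const n 0, a, h, by simp⟩

theorem F_fix {b : Bool} {c : K} {a : Al K} (e : a = (1 : K) • 1 + gn r b * (c • 1 * a)) :
    ∀ n, a ∈ F r n
  | 0 => fun t t' v v' k => by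
    induction k using Nat.strong_induction_on with
    | _ k ih =>
      intro h
      have e1 : ∀ t v, a.1 t v k = v k + c * (t k * wt r b k * ps (t * wt r b) (a.1 t v) k) := by
        intro t v
        conv_lhs => rw [e]
        simp [gn, V_apply]
      rw [e1, e1, (h k le_rfl).1, (h k le_rfl).2, ps_congr (t' := t' * wt r b) (v' := a.1 t' v')
        fun j hj => ⟨by simp [(h j hj.le).1], ih j hj fun i hi => h i (hi.trans hj.le)⟩]
  | n + 1 => e ▸ F_step b 1 (F_mul n _ (F_const n c) _ (F_fix e n))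

variable {η : Kˣ} {d : K}

/-- vanishing on the grid -/
def Z (η : Kˣ) (d : K) (M : Fam K) : Prop :=
  ∀ t : ℕ → Kˣ, t 0 = 1 → (∀ k, t k = 1 ∨ t k = η) → ∀ v : ℕ → K, (∀ k, v k = 0 ∨ v k = d) →
    ∀ k, M t v k = 0

theorem ps_succ (t : ℕ → Kˣ) (v : ℕ → K) (k : ℕ) :
    ps t v (k + 1) = ps t v k + (((t k)⁻¹ : Kˣ) : K) ^ 2 * v k := sum_range_succ _ _

theorem ps_zero {t : ℕ → Kˣ} {v : ℕ → K} (h : ∀ k, ps t v k = 0) (k : ℕ) : v k = 0 := by
  simpa [h] using ps_succ t v k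

theorem key (hη : η ≠ 1) (hd : d ≠ 0) (hr : ∀ k, r (k + 1) = r k ^ 2) (hr1 : ∀ k, r k ≠ 1) {c : K}
    {a0 a1 : Al K} (h0 : a0 ∈ F r 1) (h1 : a1 ∈ F r 1)
    (hz : Z η d (c • 1 + gn r false * a0 + gn r true * a1 : Al K).1) :
    c = 0 ∧ Z η d a0.1 ∧ Z η d a1.1 := by
  have hc : c = 0 := by
    have := hz 1 rfl (fun _ => .inl rfl) (fun _ => d) (fun _ => .inr rfl) 0
    rw [dec_apply] at this
    simpa [ps, hd] using this
  have E : ∀ t : ℕ → Kˣ, t 0 = 1 → (∀ k, t k = 1 ∨ t k = η) → ∀ v : ℕ → K,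
      (∀ k, v k = 0 ∨ v k = d) → ∀ k,
      ps (t * 1) (a0.1 t v) k + r k * ps (t * r) (a1.1 t v) k = 0 := fun t t0 ht v hv k => by
    have := hz t t0 ht v hv k
    rw [dec_apply] at this
    simpa [hc] using this
  obtain ⟨c', n0, k0, n1, k1, e⟩ := F_add 1 _ h0 _ h1
  have D : ∀ t : ℕ → Kˣ, t 0 = 1 → (∀ k, t k = 1 ∨ t k = η) → ∀ v : ℕ → K,
      (∀ k, v k = 0 ∨ v k = d) → ∀ k, v k = 0 →
      (((t k)⁻¹ : Kˣ) : K) * (ps (t * 1) (n0.1 t v) k + r k * ps (t * r) (n1.1 t v) k) +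
        r k * (r k - 1) * ps (t * r) (a1.1 t v) k = 0 := fun t t0 ht v hv k vk => by
    have a := E t t0 ht v hv k
    have b := E t t0 ht v hv (k + 1)
    have f := dec_apply (r := r) c' n0 n1 t v k
    rw [← e, vk] at f
    rw [ps_succ, ps_succ, hr] at b
    simp only [Prod.fst_add, Pi.add_apply, LinearMap.add_apply, Pi.mul_apply, Pi.one_apply, mul_one,
      mul_inv, Units.val_mul, Units.val_pow_eq_pow_val, Units.val_inv_eq_inv_val] at a b f ⊢
    have t1 := (t k).ne_zero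
    have r1 := (r k).ne_zero
    have g1 : (t k : K)⁻¹ * t k = 1 := inv_mul_cancel₀ t1
    have g2 : (r k : K)⁻¹ * r k = 1 := inv_mul_cancel₀ r1
    linear_combination b - a - (t k : K)⁻¹ ^ 2 * f -
      (t k : K)⁻¹ * (ps t (n0.1 t v) k + r k * ps (t * r) (n1.1 t v) k) * g1 -
      (t k : K)⁻¹ ^ 2 * a1.1 t v k * ((r k : K)⁻¹ * r k + 1) * g2
  have P1 : ∀ t : ℕ → Kˣ, t 0 = 1 → (∀ k, t k = 1 ∨ t k = η) → ∀ v : ℕ → K,
      (∀ k, v k = 0 ∨ v k = d) → ∀ k, ps (t * r) (a1.1 t v) k = 0 := fun t t0 ht v hv k => by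
    rcases k with _ | k
    · simp [ps]
    have lo : ∀ u : Kˣ, ∀ j < k + 1, update t (k + 1) u j = t j ∧ update v (k + 1) 0 j = v j :=
      fun u j hj => by simp [update_of_ne hj.ne]
    have G : ∀ u : Kˣ, u = 1 ∨ u = η → ((u⁻¹ : Kˣ) : K) * (ps (t * 1) (n0.1 t v) (k + 1) +
        r (k + 1) * ps (t * r) (n1.1 t v) (k + 1)) + r (k + 1) * (r (k + 1) - 1) *
        ps (t * r) (a1.1 t v) (k + 1) = 0 := fun u hu => by
      have := D (update t (k + 1) u) (by simpa using t0) (fun j => by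
        rcases eq_or_ne j (k + 1) with rfl | hj
        · simpa using hu
        · simpa [update_of_ne hj] using ht j) (update v (k + 1) 0) (fun j => by
        rcases eq_or_ne j (k + 1) with rfl | hj
        · simp
        · simpa [update_of_ne hj] using hv j) (k + 1) (by simp)
      rwa [ps_low k0 1 (lo u), ps_low k1 r (lo u), ps_low (F_mono 0 _ h1) r (lo u),
        update_self] at this
    have a := G 1 (.inl rfl)
    have b := G η (.inr rfl)
    have n1' : ((η⁻¹ : Kˣ) : K) - 1 ≠ 0 := sub_ne_zero.2 (by simpa using hη)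
    have n2 : (r (k + 1) : K) - 1 ≠ 0 := sub_ne_zero.2 (by simpa using hr1 _)
    refine (mul_eq_zero.1 (?_ : (((η⁻¹ : Kˣ) : K) - 1) * (r (k + 1) * (r (k + 1) - 1)) * _ = 0)).resolve_left
      (mul_ne_zero n1' (mul_ne_zero (r _).ne_zero n2))
    rw [inv_one, Units.val_one] at a
    linear_combination ((η⁻¹ : Kˣ) : K) * a - b
  exact ⟨hc, fun t t0 ht v hv => ps_zero fun k => by simpa [P1 t t0 ht v hv k] using E t t0 ht v hv k,
    fun t t0 ht v hv => ps_zero (P1 t t0 ht v hv)⟩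

theorem dvd_of_Z (hη : η ≠ 1) (hd : d ≠ 0) (hr : ∀ k, r (k + 1) = r k ^ 2) (hr1 : ∀ k, r k ≠ 1) :
    ∀ n, ∀ a ∈ F r (n + 1), Z η d a.1 → ∀ w, X ^ n ∣ (a.2 w).1 ∧ X ^ n ∣ (a.2 w).2
  | 0, _, _, _, _ => by simp
  | n + 1, _, ⟨c, a0, h0, a1, h1, e⟩, hz, w => by
    obtain ⟨rfl, z0, z1⟩ := key hη hd hr hr1 (F_one n _ h0) (F_one n _ h1) (e ▸ hz)
    have := (dvd_of_Z hη hd hr hr1 n _ h0 z0 w).2
    have := (dvd_of_Z hη hd hr hr1 n _ h1 z1 w).1
    simp [gn, nil, pow_succ', mul_dvd_mul_left, *]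

theorem zero_of_Z (hη : η ≠ 1) (hd : d ≠ 0) (hr : ∀ k, r (k + 1) = r k ^ 2) (hr1 : ∀ k, r k ≠ 1)
    {a : Al K} (h : ∀ n, a ∈ F r n) (hz : Z η d a.1) : a.2 = 0 :=
  LinearMap.ext fun w => Prod.ext
    (Polynomial.ext fun n => X_pow_dvd_iff.1 (dvd_of_Z hη hd hr hr1 _ a (h _) hz w).1 n n.lt_succ_self)
    (Polynomial.ext fun n => X_pow_dvd_iff.1 (dvd_of_Z hη hd hr hr1 _ a (h _) hz w).2 n n.lt_succ_self)

end Pool.Agent.MP_e17fb9_al.H47
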