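import Pool.Agent.MP_e17fb9_al.H47.Seq

/-!
The normal complement theorem of Frobenius: statement.
-/

namespace Pool.Agent.MP_e17fb9_al.H47

def S_FT : Prop := ∀ (G : Type) [Group G] [Finite G] (p : ℕ), p.Prime →
  (∀ Q : Subgroup G, IsPGroup p Q → ∀ g : G, (orderOf g).Coprime p → (∀ x ∈ Q, g * x * g⁻¹ ∈ Q) →
    ∀ x ∈ Q, g * x = x * g) →
  ∃ N : Subgroup G, N.Normal ∧ (Nat.card N).Coprime p ∧ ∃ k : ℕ, N.index = p ^ k

end Pool.Agent.MP_e17fb9_al.H47
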